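import Pool.Agent.Lib_MP_752436_rb.Defs

/-!
PIECE SMALLDIFFEO: the identity plus a small smooth vector field is a diffeomorphism.

Proof of `exists_inverse_id_add`: `x ↦ x + U x` is injective and surjective: `U` is
`1/2`-Lipschitz (`lipschitzWith_of_nnnorm_fderiv_le`), for surjectivity use the contraction
`x ↦ y - U x` (`ContractingWith.exists_fixedPoint'` / `efixedPoint`), its derivative
`id + DU` is invertible (Neumann series, `ContinuousLinearEquiv`, or injective + finite
dimensional), and the global inverse is smooth by the inverse function theorem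
(`ContDiffAt.to_localInverse` and `eventually` uniqueness, or
`OpenPartialHomeomorph.contDiffAt_symm`; the inverse is continuous as it is 2-Lipschitz).
-/

open MeasureTheory Metric Set
open scoped ContDiff Topology

namespace Pool.Agent.Lib_MP_752436_rb

open Pool.Agent.Lib_MP_752436_gt

variable {E : Type*} [NormedAddCommGroup E] [NormedSpace ℝ E] [FiniteDimensional ℝ E]

theorem exists_inverse_id_add {U : E → E} (hU : ContDiff ℝ ∞ U)
    (hd : ∀ x, ‖fderiv ℝ U x‖ ≤ 1 / 2) :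
    ∃ Φ : E → E, ContDiff ℝ ∞ Φ ∧ (∀ x, Φ (x + U x) = x) ∧ ∀ x, Φ x + U (Φ x) = x := by
  have : CompleteSpace E := FiniteDimensional.complete ℝ E
  have hlip : ∀ x y, ‖U x - U y‖ ≤ 1 / 2 * ‖x - y‖ := by
    intro x y
    exact convex_univ.norm_image_sub_le_of_norm_fderiv_le (𝕜 := ℝ) (f := U) (C := 1 / 2)
      (fun q _ => (hU.differentiable (by simp)) q) (fun q _ => hd q) (mem_univ y) (mem_univ x)
  have happ : ApproximatesLinearOn (fun x => x + U x)
      ((ContinuousLinearEquiv.refl ℝ E : E ≃L[ℝ] E) : E →L[ℝ] E) univ (1 / 2 : NNReal) := by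
    intro x _ y _
    have h1 : (fun x => x + U x) x - (fun x => x + U x) y -
        ((ContinuousLinearEquiv.refl ℝ E : E ≃L[ℝ] E) : E →L[ℝ] E) (x - y) = U x - U y := by
      show x + U x - (y + U y) - (x - y) = U x - U y
      abel
    rw [h1]
    have := hlip x y
    simpa using this
  have hc : Subsingleton E ∨ (1 / 2 : NNReal) <
      ‖((ContinuousLinearEquiv.refl ℝ E).symm : E →L[ℝ] E)‖₊⁻¹ := by
    rcases subsingleton_or_nontrivial E with h | h
    · exact Or.inl h
    · right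
      have h1 : ((ContinuousLinearEquiv.refl ℝ E).symm : E →L[ℝ] E) =
          ContinuousLinearMap.id ℝ E := rfl
      rw [h1, ← NNReal.coe_lt_coe, NNReal.coe_inv, coe_nnnorm, ContinuousLinearMap.norm_id]
      norm_num
  set h : E ≃ₜ E := happ.toHomeomorph _ hc with hh
  have hcoe : ∀ x, h x = x + U x := fun x => rfl
  have hder : ∀ x, ∃ L : E ≃L[ℝ] E, HasFDerivAt (h : E → E) (L : E →L[ℝ] E) x := by
    intro x
    have h1 : HasFDerivAt (fun x => x + U x) (ContinuousLinearMap.id ℝ E + fderiv ℝ U x) x :=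
      (hasFDerivAt_id x).add ((hU.differentiable (by simp)) x).hasFDerivAt
    have h2 : Function.Injective (ContinuousLinearMap.id ℝ E + fderiv ℝ U x) := by
      rw [injective_iff_map_eq_zero]
      intro v hv
      have hv' : v + fderiv ℝ U x v = 0 := hv
      have h3 : ‖v‖ ≤ 1 / 2 * ‖v‖ := by
        have h6 : v = -(fderiv ℝ U x v) := eq_neg_of_add_eq_zero_left hv'
        calc ‖v‖ = ‖-(fderiv ℝ U x v)‖ := by rw [← h6]
          _ = ‖fderiv ℝ U x v‖ := norm_neg _
          _ ≤ ‖fderiv ℝ U x‖ * ‖v‖ := ContinuousLinearMap.le_opNorm _ _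
          _ ≤ 1 / 2 * ‖v‖ := mul_le_mul_of_nonneg_right (hd x) (norm_nonneg _)
      have h4 : ‖v‖ ≤ 0 := by linarith
      exact norm_le_zero_iff.1 h4
    let L : E ≃L[ℝ] E := (LinearEquiv.ofInjectiveEndo
      ((ContinuousLinearMap.id ℝ E + fderiv ℝ U x : E →L[ℝ] E) : E →ₗ[ℝ] E)
      h2).toContinuousLinearEquiv
    refine ⟨L, ?_⟩
    have h5 : (L : E →L[ℝ] E) = ContinuousLinearMap.id ℝ E + fderiv ℝ U x := by
      ext v
      rfl
    rw [h5]
    exact h1
  choose L hL using hder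
  have hsm : ContDiff ℝ ∞ (h : E → E) := contDiff_id.add hU
  refine ⟨h.symm, h.contDiff_symm hL hsm, fun x => ?_, fun x => ?_⟩
  · rw [← hcoe x]
    exact h.symm_apply_apply x
  · rw [← hcoe (h.symm x)]
    exact h.apply_symm_apply x

theorem isIsotopy_id_add {U : E → E} (hU : ContDiff ℝ ∞ U) (hd : ∀ x, ‖fderiv ℝ U x‖ ≤ 1 / 2)
    {W : Set E} (hW : ∀ x ∉ W, U x = 0) : IsIsotopy W (fun s x => x + s • U x) := by
  refine ⟨contDiff_snd.add (contDiff_fst.smul (hU.comp contDiff_snd)), fun x => ?_,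
    fun s hs => ?_, fun s x hx => ?_⟩
  · rw [zero_smul, add_zero]
  · have h1 : ContDiff ℝ ∞ (fun x => s • U x) := contDiff_const.smul hU
    have h2 : ∀ x, ‖fderiv ℝ (fun x => s • U x) x‖ ≤ 1 / 2 := by
      intro x
      have h3 : HasFDerivAt (fun x => s • U x) (s • fderiv ℝ U x) x :=
        ((hU.differentiable (by simp)) x).hasFDerivAt.const_smul s
      rw [h3.fderiv, norm_smul, Real.norm_eq_abs, abs_of_nonneg hs.1]
      calc s * ‖fderiv ℝ U x‖ ≤ 1 * (1 / 2) :=
            mul_le_mul hs.2 (hd x) (norm_nonneg _) zero_le_one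
        _ = 1 / 2 := by ring
    exact exists_inverse_id_add h1 h2
  · rw [hW x hx, smul_zero, add_zero]

theorem IsIsotopy.comp {W : Set E} {Ψ Ψ' : ℝ → E → E} (h' : IsIsotopy W Ψ')
    (h : IsIsotopy W Ψ) : IsIsotopy W (fun s x => Ψ' s (Ψ s x)) := by
  refine ⟨h'.smooth.comp (contDiff_fst.prodMk h.smooth), fun x => ?_, fun s hs => ?_,
    fun s x hx => ?_⟩
  · rw [h.start x, h'.start x]
  · obtain ⟨Φ, hΦ, h1, h2⟩ := h.inverse s hs
    obtain ⟨Φ', hΦ', h1', h2'⟩ := h'.inverse s hs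
    refine ⟨fun x => Φ (Φ' x), hΦ.comp hΦ', fun x => ?_, fun x => ?_⟩
    · show Φ (Φ' (Ψ' s (Ψ s x))) = x
      rw [h1', h1]
    · show Ψ' s (Ψ s (Φ (Φ' x))) = x
      rw [h2, h2']
  · rw [h.outside s x hx, h'.outside s x hx]

theorem isIsotopy_id (W : Set E) : IsIsotopy W (fun _ x => x) :=
  ⟨contDiff_snd, fun _ => rfl, fun _ _ => ⟨id, contDiff_id, fun _ => rfl, fun _ => rfl⟩,
    fun _ _ _ => rfl⟩

theorem IsIsotopy.mono {W W' : Set E} {Ψ : ℝ → E → E} (h : IsIsotopy W Ψ) (hW : W ⊆ W') :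
    IsIsotopy W' Ψ :=
  ⟨h.smooth, h.start, h.inverse, fun s x hx => h.outside s x fun hx' => hx (hW hx')⟩

end Pool.Agent.Lib_MP_752436_rb
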