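import Pool.Agent.Lib_MP_752436_gt.BirthDefs
import Pool.Agent.Lib_MP_752436_gt.DiagramDefs

/-!
Isotopies, and immersed discs in `R^3` with ribbon singularities (the literal definition of a
ribbon knot).
-/

open MeasureTheory Metric Set
open scoped ContDiff

namespace Pool.Agent.Lib_MP_752436_rb

open Pool.Agent.Lib_MP_752436_gt

/-- `Ψ s`, `0 ≤ s ≤ 1`, is a smooth isotopy of the normed space `E`: `Ψ` is jointly smooth,
`Ψ 0` is the identity, and every `Ψ s` with `0 ≤ s ≤ 1` is a diffeomorphism, equal to the identity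
outside `W`. -/
structure IsIsotopy {E : Type*} [NormedAddCommGroup E] [NormedSpace ℝ E] (W : Set E)
    (Ψ : ℝ → E → E) : Prop where
  smooth : ContDiff ℝ ∞ (fun p : ℝ × E => Ψ p.1 p.2)
  start : ∀ x, Ψ 0 x = x
  inverse : ∀ s ∈ Icc (0 : ℝ) 1, ∃ Φ : E → E, ContDiff ℝ ∞ Φ ∧ (∀ x, Φ (Ψ s x) = x) ∧
    ∀ x, Ψ s (Φ x) = x
  outside : ∀ s, ∀ x ∉ W, Ψ s x = x

/-- `K` and `K'` are ambient isotopic subsets of `R^3`. -/
def AmbientIsotopic (K K' : Set (EuclideanSpace ℝ (Fin 3))) : Prop :=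
  ∃ Ψ : ℝ → EuclideanSpace ℝ (Fin 3) → EuclideanSpace ℝ (Fin 3),
    IsIsotopy univ Ψ ∧ Ψ 1 '' K = K'

/-- A smooth embedded arc in the plane, parametrised by `[0, 1]`. -/
structure IsArc (α : ℝ → EuclideanSpace ℝ (Fin 2)) : Prop where
  smooth : ContDiff ℝ ∞ α
  regular : ∀ s ∈ Icc (0 : ℝ) 1, deriv α s ≠ 0
  inj : InjOn α (Icc 0 1)

/-- `α`, `β` are the two preimage arcs of a ribbon singularity of `f`: the arc `α` lies in the open
disc, the arc `β` is properly embedded in the disc (its two end points lie on the unit circle, all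
other points in the open disc), the two arcs are disjoint, and `f ∘ α = f ∘ β`. -/
structure RibbonPair (f : EuclideanSpace ℝ (Fin 2) → EuclideanSpace ℝ (Fin 3))
    (α β : ℝ → EuclideanSpace ℝ (Fin 2)) : Prop where
  arcα : IsArc α
  arcβ : IsArc β
  inside : ∀ s ∈ Icc (0 : ℝ) 1, α s ∈ ball (0 : EuclideanSpace ℝ (Fin 2)) 1
  proper : ∀ s ∈ Ioo (0 : ℝ) 1, β s ∈ ball (0 : EuclideanSpace ℝ (Fin 2)) 1
  left : β 0 ∈ sphere (0 : EuclideanSpace ℝ (Fin 2)) 1
  right : β 1 ∈ sphere (0 : EuclideanSpace ℝ (Fin 2)) 1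
  disjoint : Disjoint (α '' Icc 0 1) (β '' Icc 0 1)
  same : ∀ s ∈ Icc (0 : ℝ) 1, f (α s) = f (β s)

/-- `f` restricts to an immersion of the closed unit disc into `R^3` whose set of double points is
a finite disjoint union of ribbon singularities. -/
structure RibbonImmersion (f : EuclideanSpace ℝ (Fin 2) → EuclideanSpace ℝ (Fin 3)) : Prop where
  smooth : ContDiff ℝ ∞ f
  immersion : ∀ x ∈ closedBall (0 : EuclideanSpace ℝ (Fin 2)) 1,
    Function.Injective (fderiv ℝ f x)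
  singularities : ∃ (n : ℕ) (α β : Fin n → ℝ → EuclideanSpace ℝ (Fin 2)),
    (∀ i, RibbonPair f (α i) (β i)) ∧
    (∀ i j, i ≠ j → Disjoint (f ∘ α i '' Icc 0 1) (f ∘ α j '' Icc 0 1)) ∧
    ∀ x ∈ closedBall (0 : EuclideanSpace ℝ (Fin 2)) 1,
      ∀ y ∈ closedBall (0 : EuclideanSpace ℝ (Fin 2)) 1, x ≠ y → f x = f y →
        ∃ i, ∃ s ∈ Icc (0 : ℝ) 1, (x = α i s ∧ y = β i s) ∨ (x = β i s ∧ y = α i s)

/-- A ribbon knot: the boundary of an immersed disc in `R^3` all of whose singularities are ribbon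
singularities. -/
def IsRibbonKnot (K : Set (EuclideanSpace ℝ (Fin 3))) : Prop :=
  ∃ f, RibbonImmersion f ∧ f '' sphere 0 1 = K

/-- The boundary knot of a slice disc. -/
def boundaryKnot (F : EuclideanSpace ℝ (Fin 2) → EuclideanSpace ℝ (Fin 4)) :
    Set (EuclideanSpace ℝ (Fin 3)) :=
  shadow F '' sphere 0 1

end Pool.Agent.Lib_MP_752436_rb
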