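import Pool.Agent.Lib_MP_752436_rb.Ext

/-!
PIECE GRAPH: short arcs lie on the graph of a smooth function, in generic axes.

`exists_axes`: for finitely many points `p i` (distinct) and vectors `v i ≠ 0` of the plane there
is a linear isometry `R` such that the first coordinates of the `R (p i)` are distinct and the
first coordinates of the `R (v i)` do not vanish. (Rotation by the angle `θ`: the first coordinate
of `R w` is `cos θ w_0 - sin θ w_1`, which for `w ≠ 0` vanishes for finitely many `θ ∈ [0, π)`;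
e.g. take `(cos θ, sin θ) = (1 - m^2, 2m)/(1 + m^2)` with `m = 1, 2, 3, ...` and use that each
nonzero quadratic polynomial in `m` has at most two roots.)

`exists_graph`: `x_i(s) = α i s 0` has nonzero derivative at `0`, so it has a smooth local inverse
(inverse function theorem in one variable, `HasStrictDerivAt.localInverse`,
`ContDiffAt.to_localInverse`), `k_i`, and `G_i x = α i (k_i x) 1` near `α i 0 0`. Let
`G x = ∑ i, η_i x * G_i x`, `η_i` bump functions with values in `[0, 1]`, equal to `1` near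
`α i 0 0` and supported in disjoint small intervals inside `(-1, 1)` on which `G_i` is smooth and
`x^2 + G_i(x)^2 < 1`.
-/

open MeasureTheory Metric Set
open scoped ContDiff Topology

namespace Pool.Agent.Lib_MP_752436_rb

open Pool.Agent.Lib_MP_752436_gt

/-- a unit vector which is not orthogonal to finitely many given nonzero vectors -/
private theorem gr_exists_unit {T : Set (EuclideanSpace ℝ (Fin 2))} (hT : T.Finite)
    (h0 : ∀ u ∈ T, u ≠ 0) :
    ∃ w : EuclideanSpace ℝ (Fin 2), ‖w‖ = 1 ∧ ∀ u ∈ T, inner ℝ w u ≠ 0 := by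
  have hbad : (⋃ u ∈ T, {m : ℕ | u 0 + m * u 1 = 0}).Finite := by
    refine hT.biUnion fun u hu => Set.Subsingleton.finite ?_
    intro m hm m' hm'
    have hm0 : u 0 + m * u 1 = 0 := hm
    have hm0' : u 0 + m' * u 1 = 0 := hm'
    have h1 : ((m : ℝ) - m') * u 1 = 0 := by linarith
    rcases mul_eq_zero.1 h1 with h2 | h2
    · exact_mod_cast sub_eq_zero.1 h2
    · exfalso
      rw [h2, mul_zero, add_zero] at hm0
      apply h0 u hu
      ext j
      fin_cases j
      · exact hm0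
      · exact h2
  obtain ⟨m, hm⟩ := hbad.exists_notMem
  set z : EuclideanSpace ℝ (Fin 2) := !₂[(1 : ℝ), (m : ℝ)] with hz
  have hz0 : z ≠ 0 := by
    intro h
    have := congrArg (fun y : EuclideanSpace ℝ (Fin 2) => y 0) h
    simp [hz] at this
  have hnz : ‖z‖ ≠ 0 := norm_ne_zero_iff.2 hz0
  refine ⟨‖z‖⁻¹ • z, ?_, fun u hu => ?_⟩
  · rw [norm_smul, norm_inv, norm_norm, inv_mul_cancel₀ hnz]
  · rw [inner_smul_left]
    simp only [conj_trivial]
    refine mul_ne_zero (inv_ne_zero hnz) ?_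
    intro h
    apply hm
    refine mem_biUnion hu ?_
    have : inner ℝ z u = u 0 + m * u 1 := by
      rw [hz, PiLp.inner_apply, Fin.sum_univ_two]
      simp
      ring
    rw [this] at h
    exact h

theorem exists_axes {n : ℕ} (p v : Fin n → EuclideanSpace ℝ (Fin 2))
    (hp : ∀ i j, i ≠ j → p i ≠ p j) (hv : ∀ i, v i ≠ 0) :
    ∃ R : EuclideanSpace ℝ (Fin 2) ≃ₗᵢ[ℝ] EuclideanSpace ℝ (Fin 2),
      (∀ i j, i ≠ j → R (p i) 0 ≠ R (p j) 0) ∧ ∀ i, R (v i) 0 ≠ 0 := by
  set T : Set (EuclideanSpace ℝ (Fin 2)) :=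
    ((range fun ij : Fin n × Fin n => p ij.1 - p ij.2) \ {0}) ∪ range v with hTd
  have hT : T.Finite := ((finite_range _).subset sdiff_subset).union (finite_range v)
  have hT0 : ∀ u ∈ T, u ≠ 0 := by
    rintro u (hu | ⟨i, rfl⟩)
    · exact hu.2
    · exact hv i
  obtain ⟨w, hw, hwT⟩ := gr_exists_unit hT hT0
  set e : EuclideanSpace ℝ (Fin 2) := EuclideanSpace.single 0 1 with he
  have hen : ‖e‖ = 1 := by
    rw [he]
    simp
  set R : EuclideanSpace ℝ (Fin 2) ≃ₗᵢ[ℝ] EuclideanSpace ℝ (Fin 2) :=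
    (ℝ ∙ (e - w))ᗮ.reflection with hR
  have hRe : R w = e := by
    have h1 : R e = w := Submodule.reflection_sub (hen.trans hw.symm)
    rw [← h1]
    exact Submodule.reflection_reflection _ _
  have hcoord : ∀ u, R u 0 = inner ℝ w u := by
    intro u
    have h1 : R u 0 = inner ℝ e (R u) := by
      rw [he, PiLp.inner_apply, Fin.sum_univ_two]
      simp
    rw [h1, ← hRe, LinearIsometryEquiv.inner_map_map]
  refine ⟨R, fun i j hij h => ?_, fun i => ?_⟩
  · rw [hcoord, hcoord] at h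
    have h1 : inner ℝ w (p i - p j) = 0 := by
      rw [inner_sub_right, h, sub_self]
    refine hwT (p i - p j) (Or.inl ⟨⟨(i, j), rfl⟩, ?_⟩) h1
    intro h2
    exact hp i j hij (sub_eq_zero.1 h2)
  · rw [hcoord]
    exact hwT (v i) (Or.inr ⟨i, rfl⟩)

theorem exists_graph {n : ℕ} {α : Fin n → ℝ → EuclideanSpace ℝ (Fin 2)}
    (hs : ∀ i, ContDiff ℝ ∞ (α i)) (hb : ∀ i, α i 0 ∈ ball (0 : EuclideanSpace ℝ (Fin 2)) 1)
    (hx : ∀ i j, i ≠ j → α i 0 0 ≠ α j 0 0) (hd : ∀ i, deriv (α i) 0 0 ≠ 0) :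
    ∃ c : ℝ, 0 < c ∧ c ≤ 1 ∧ ∃ G : ℝ → ℝ, ContDiff ℝ ∞ G ∧
      (∀ x, |x| < 1 → x ^ 2 + G x ^ 2 < 1) ∧ (∀ x, 1 ≤ |x| → G x = 0) ∧
      ∀ i, ∀ s ∈ Icc (0 : ℝ) c, α i s ∈ ball (0 : EuclideanSpace ℝ (Fin 2)) 1 ∧
        α i s 1 = G (α i s 0) := by
  have hsc : ∀ i j, ContDiff ℝ ∞ (fun s => α i s j) := fun i j =>
    (contDiff_euclidean.1 (hs i)) j
  -- local inverses of the first coordinates
  have hk : ∀ i, ∃ k : ℝ → ℝ, ContDiff ℝ ∞ k ∧ ∀ᶠ s in 𝓝 (0 : ℝ), k (α i s 0) = s := by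
    intro i
    refine exists_left_inverse (hsc i 0) ?_
    have h1 : HasDerivAt (α i) (deriv (α i) 0) 0 :=
      (((hs i).differentiable (by simp)) 0).hasDerivAt
    have h2 : HasDerivAt (fun s => α i s 0) (deriv (α i) 0 0) 0 := by
      exact ((EuclideanSpace.proj (0 : Fin 2) :
        EuclideanSpace ℝ (Fin 2) →L[ℝ] ℝ).hasFDerivAt (x := α i 0)).comp_hasDerivAt 0 h1
    rw [injective_iff_map_eq_zero]
    intro t ht
    rw [h2.hasFDerivAt.fderiv] at ht
    simp only [ContinuousLinearMap.toSpanSingleton_apply, smul_eq_mul] at ht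
    exact (mul_eq_zero.1 ht).resolve_right (hd i)
  choose k hks hke using hk
  set Gi : Fin n → ℝ → ℝ := fun i x => α i (k i x) 1 with hGi
  have hGs : ∀ i, ContDiff ℝ ∞ (Gi i) := fun i => (hsc i 1).comp (hks i)
  have hk0 : ∀ i, k i (α i 0 0) = 0 := fun i => (hke i).self_of_nhds
  -- small intervals
  have hri : ∀ i, ∃ r > 0, ∀ x, dist x (α i 0 0) < r → |x| < 1 ∧ x ^ 2 + Gi i x ^ 2 < 1 := by
    intro i
    have hball : (α i 0 0) ^ 2 + (α i 0 1) ^ 2 < 1 := by
      have h1 : ‖α i 0‖ < 1 := by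
        have := hb i
        rwa [mem_ball_zero_iff] at this
      have h2 : ‖α i 0‖ ^ 2 = (α i 0 0) ^ 2 + (α i 0 1) ^ 2 := by
        rw [EuclideanSpace.norm_sq_eq, Fin.sum_univ_two, Real.norm_eq_abs, Real.norm_eq_abs,
          sq_abs, sq_abs]
      rw [← h2]
      nlinarith [norm_nonneg (α i 0)]
    have h3 : ∀ᶠ x in 𝓝 (α i 0 0), x ^ 2 + Gi i x ^ 2 < 1 := by
      have hc : ContinuousAt (fun x => x ^ 2 + Gi i x ^ 2) (α i 0 0) :=
        ((continuous_id.pow 2).add ((hGs i).continuous.pow 2)).continuousAt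
      refine hc.eventually_lt continuousAt_const ?_
      show (α i 0 0) ^ 2 + Gi i (α i 0 0) ^ 2 < 1
      have : Gi i (α i 0 0) = α i 0 1 := by
        show α i (k i (α i 0 0)) 1 = α i 0 1
        rw [hk0]
      rw [this]
      exact hball
    obtain ⟨r, hr, hr'⟩ := Metric.eventually_nhds_iff.1 h3
    refine ⟨r, hr, fun x hx => ⟨?_, hr' hx⟩⟩
    have := hr' hx
    rw [abs_lt]
    constructor <;> nlinarith [sq_nonneg (Gi i x)]
  choose r hr hr' using hri
  obtain ⟨ρ, ⟨hρ1, hρ2⟩, hρ⟩ : ∃ ρ : ℝ, ((∀ i, ρ ≤ r i) ∧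
      ∀ i j, i ≠ j → 2 * ρ < |α i 0 0 - α j 0 0|) ∧ 0 < ρ := by
    have h1 : ∀ᶠ ρ in 𝓝[>] (0 : ℝ), ∀ i, ρ ≤ r i :=
      Filter.eventually_all.2 fun i => (eventually_le_nhds (hr i)).filter_mono nhdsWithin_le_nhds
    have h2 : ∀ᶠ ρ in 𝓝[>] (0 : ℝ), ∀ i j, i ≠ j → 2 * ρ < |α i 0 0 - α j 0 0| := by
      refine Filter.eventually_all.2 fun i => Filter.eventually_all.2 fun j => ?_
      by_cases hij : i = j
      · exact Filter.Eventually.of_forall fun ρ h => absurd hij h
      · have h3 : 0 < |α i 0 0 - α j 0 0| / 2 := by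
          have := abs_pos.2 (sub_ne_zero.2 (hx i j hij))
          positivity
        filter_upwards [(eventually_lt_nhds h3).filter_mono nhdsWithin_le_nhds] with ρ hρ _
        linarith
    have h3 : ∀ᶠ ρ in 𝓝[>] (0 : ℝ), 0 < ρ := self_mem_nhdsWithin
    exact ((h1.and h2).and h3).exists
  let η : ∀ i, ContDiffBump (α i 0 0) := fun i => ⟨ρ / 2, ρ, by positivity, by linarith⟩
  have hη0 : ∀ i x, ρ ≤ dist x (α i 0 0) → (η i) x = 0 := fun i x h =>
    (η i).zero_of_le_dist h
  have hη1 : ∀ i x, dist x (α i 0 0) ≤ ρ / 2 → (η i) x = 1 := fun i x h =>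
    (η i).one_of_mem_closedBall h
  have hother : ∀ i j x, i ≠ j → dist x (α i 0 0) < ρ → (η j) x = 0 := by
    intro i j x hij hxi
    apply hη0
    by_contra hcon
    rw [not_le] at hcon
    have h1 := hρ2 i j hij
    have h2 : |α i 0 0 - α j 0 0| ≤ dist x (α i 0 0) + dist x (α j 0 0) := by
      rw [← Real.dist_eq, dist_comm x (α i 0 0)]
      exact dist_triangle _ _ _
    linarith
  set G : ℝ → ℝ := fun x => ∑ i, (η i) x * Gi i x with hG
  have hGin : ∀ i x, dist x (α i 0 0) < ρ → G x = (η i) x * Gi i x := by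
    intro i x hxi
    rw [hG]
    refine Finset.sum_eq_single i (fun j _ hji => ?_) (fun h => absurd (Finset.mem_univ i) h)
    rw [hother i j x (Ne.symm hji) hxi, zero_mul]
  -- the length
  have hc : ∀ᶠ s in 𝓝 (0 : ℝ), ∀ i, (α i s ∈ ball (0 : EuclideanSpace ℝ (Fin 2)) 1 ∧
      dist (α i s 0) (α i 0 0) < ρ / 2) ∧ k i (α i s 0) = s := by
    refine Filter.eventually_all.2 fun i => (Filter.Eventually.and ?_ ?_).and (hke i)
    · exact (hs i).continuous.continuousAt.eventually (isOpen_ball.mem_nhds (hb i))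
    · have h1 : ContinuousAt (fun s => dist (α i s 0) (α i 0 0)) 0 :=
        ((hsc i 0).continuous.dist continuous_const).continuousAt
      refine h1.eventually_lt continuousAt_const ?_
      rw [dist_self]
      positivity
  obtain ⟨δ, hδ, hδ'⟩ := Metric.eventually_nhds_iff.1 hc
  refine ⟨min (δ / 2) 1, by positivity, min_le_right _ _, G, ?_, ?_, ?_, ?_⟩
  · exact ContDiff.sum fun i _ => ((η i).contDiff).mul (hGs i)
  · intro x hx1
    by_cases h : ∃ i, dist x (α i 0 0) < ρ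
    · obtain ⟨i, hi⟩ := h
      have h1 := (hr' i x (hi.trans_le (hρ1 i))).2
      rw [hGin i x hi, mul_pow]
      have h2 : (η i) x ^ 2 ≤ 1 := by
        have h3 := (η i).nonneg (x := x)
        have h4 := (η i).le_one (x := x)
        nlinarith
      nlinarith [sq_nonneg (Gi i x)]
    · have h1 : G x = 0 := by
        rw [hG]
        refine Finset.sum_eq_zero fun i _ => ?_
        rw [hη0 i x (not_lt.1 fun h' => h ⟨i, h'⟩), zero_mul]
      rw [h1]
      rw [abs_lt] at hx1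
      nlinarith
  · intro x hx1
    rw [hG]
    refine Finset.sum_eq_zero fun i _ => ?_
    rw [hη0 i x ?_, zero_mul]
    by_contra hcon
    rw [not_le] at hcon
    have := (hr' i x (hcon.trans_le (hρ1 i))).1
    linarith
  · intro i s hs'
    have h1 : dist s 0 < δ := by
      rw [Real.dist_eq, sub_zero, abs_of_nonneg hs'.1]
      have := hs'.2.trans (min_le_left _ _)
      linarith
    obtain ⟨⟨h2, h3⟩, h4⟩ := hδ' h1 i
    refine ⟨h2, ?_⟩
    rw [hGin i _ (h3.trans (by linarith)), hη1 i _ h3.le, one_mul]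
    show α i s 1 = α i (k i (α i s 0)) 1
    rw [h4]

end Pool.Agent.Lib_MP_752436_rb
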