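import Pool.Agent.Lib_MP_752436_rb.IsoExt

/-!
PIECE SHRINK: disjoint arcs in the open disc can be shrunk along themselves by an isotopy which is
the identity near the unit circle.

Choose open sets `W i ⊆ ball 0 1` with `α i '' Icc 0 1 ⊆ W i`, pairwise disjoint (compact disjoint
sets, thickenings). For each `i` apply `isotopy_extension_of_immersion` with `E = ℝ`,
`P = Icc 0 1`, `H lam s = α i ((1 - lam * (1 - c)) * s)`, `W = W i` (the derivative of `H lam` at
`s` is `(1 - lam (1-c)) • deriv (α i) _ ≠ 0`). Compose the isotopies (induction over `Finset`);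
each one is the identity outside its `W i`.
-/

open MeasureTheory Metric Set
open scoped ContDiff Topology

namespace Pool.Agent.Lib_MP_752436_rb

open Pool.Agent.Lib_MP_752436_gt

private theorem shrink_one {α : ℝ → EuclideanSpace ℝ (Fin 2)} (harc : IsArc α)
    {W : Set (EuclideanSpace ℝ (Fin 2))} (hW : IsOpen W) (hαW : α '' Icc 0 1 ⊆ W) {c : ℝ}
    (hc : 0 < c) (hc1 : c ≤ 1) :
    ∃ Ψ : ℝ → EuclideanSpace ℝ (Fin 2) → EuclideanSpace ℝ (Fin 2),
      IsIsotopy W Ψ ∧ ∀ s ∈ Icc (0 : ℝ) 1, Ψ 1 (α s) = α (c * s) := by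
  have hk : ∀ l ∈ Icc (0 : ℝ) 1, 0 < 1 - l * (1 - c) ∧ 1 - l * (1 - c) ≤ 1 := by
    intro l hl
    have h1 : 0 ≤ l * (1 - c) := mul_nonneg hl.1 (by linarith)
    have h2 : l * (1 - c) ≤ 1 * (1 - c) := mul_le_mul_of_nonneg_right hl.2 (by linarith)
    exact ⟨by linarith, by linarith⟩
  have hmem : ∀ l ∈ Icc (0 : ℝ) 1, ∀ x ∈ Icc (0 : ℝ) 1,
      (1 - l * (1 - c)) * x ∈ Icc (0 : ℝ) 1 := by
    intro l hl x hx
    obtain ⟨h1, h2⟩ := hk l hl
    exact ⟨mul_nonneg h1.le hx.1, mul_le_one₀ h2 hx.1 hx.2⟩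
  obtain ⟨Ψ, hΨ, hΨ1⟩ := isotopy_extension_of_immersion
    (H := fun l s => α ((1 - l * (1 - c)) * s)) (P := Icc (0 : ℝ) 1) (W := W)
    (harc.smooth.comp (by fun_prop)) isCompact_Icc
    (by
      intro l hl x hx y hy hxy
      have h := harc.inj (hmem l hl x hx) (hmem l hl y hy) hxy
      exact mul_left_cancel₀ (hk l hl).1.ne' h)
    (by
      intro l hl x hx
      have hd : HasDerivAt (fun s => α ((1 - l * (1 - c)) * s))
          ((1 - l * (1 - c)) • deriv α ((1 - l * (1 - c)) * x)) x := by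
        have h1 : HasDerivAt α (deriv α ((1 - l * (1 - c)) * x)) ((1 - l * (1 - c)) * x) :=
          ((harc.smooth.differentiable (by simp)) _).hasDerivAt
        have h2 : HasDerivAt (fun s : ℝ => (1 - l * (1 - c)) * s) (1 - l * (1 - c)) x := by
          simpa using (hasDerivAt_id x).const_mul (1 - l * (1 - c))
        exact h1.scomp x h2
      have hne : (1 - l * (1 - c)) • deriv α ((1 - l * (1 - c)) * x) ≠ 0 :=
        smul_ne_zero (hk l hl).1.ne' (harc.regular _ (hmem l hl x hx))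
      rw [hd.hasFDerivAt.fderiv]
      intro a b hab
      simp only [ContinuousLinearMap.toSpanSingleton_apply] at hab
      exact smul_left_injective ℝ hne hab)
    hW
    (by
      intro l hl x hx
      exact hαW (mem_image_of_mem _ (hmem l hl x hx)))
  refine ⟨Ψ, hΨ, fun s hs => ?_⟩
  have h := hΨ1 s hs
  simpa using h

private theorem shrink_separate {n : ℕ} {α : Fin n → ℝ → EuclideanSpace ℝ (Fin 2)}
    (harc : ∀ i, IsArc (α i))
    (hb : ∀ i, ∀ s ∈ Icc (0 : ℝ) 1, α i s ∈ ball (0 : EuclideanSpace ℝ (Fin 2)) 1)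
    (hdisj : ∀ i j, i ≠ j → Disjoint (α i '' Icc 0 1) (α j '' Icc 0 1)) :
    ∃ W : Fin n → Set (EuclideanSpace ℝ (Fin 2)), (∀ i, IsOpen (W i)) ∧
      (∀ i, W i ⊆ ball 0 1) ∧ (∀ i, α i '' Icc 0 1 ⊆ W i) ∧
      ∀ i j, i ≠ j → Disjoint (W i) (W j) := by
  have hcomp : ∀ i, IsCompact (α i '' Icc (0 : ℝ) 1) := fun i =>
    isCompact_Icc.image (harc i).smooth.continuous
  have hne : ∀ i, (α i '' Icc (0 : ℝ) 1).Nonempty := fun i =>
    (nonempty_Icc.2 zero_le_one).image _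
  refine ⟨fun i => ball 0 1 ∩ ⋂ j ∈ {j | j ≠ i},
    {x | infDist x (α i '' Icc 0 1) < infDist x (α j '' Icc 0 1)}, ?_, ?_, ?_, ?_⟩
  · intro i
    refine isOpen_ball.inter (Set.Finite.isOpen_biInter (Set.toFinite _) fun j _ => ?_)
    exact isOpen_lt (continuous_infDist_pt _) (continuous_infDist_pt _)
  · intro i
    exact inter_subset_left
  · rintro i _ ⟨s, hs, rfl⟩
    refine ⟨hb i s hs, ?_⟩
    simp only [mem_iInter]
    intro j hj
    have h0 : infDist (α i s) (α i '' Icc 0 1) = 0 := infDist_zero_of_mem (mem_image_of_mem _ hs)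
    have h1 : α i s ∉ α j '' Icc 0 1 := fun h =>
      (disjoint_left.1 (hdisj i j (Ne.symm hj))) (mem_image_of_mem _ hs) h
    have h2 : 0 < infDist (α i s) (α j '' Icc 0 1) :=
      ((hcomp j).isClosed.notMem_iff_infDist_pos (hne j)).1 h1
    show infDist (α i s) (α i '' Icc 0 1) < infDist (α i s) (α j '' Icc 0 1)
    rw [h0]
    exact h2
  · intro i j hij
    rw [disjoint_left]
    rintro x ⟨_, hx⟩ ⟨_, hx'⟩
    simp only [mem_iInter] at hx hx'
    have h1 : infDist x (α i '' Icc 0 1) < infDist x (α j '' Icc 0 1) := hx j (Ne.symm hij)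
    have h2 : infDist x (α j '' Icc 0 1) < infDist x (α i '' Icc 0 1) := hx' i hij
    exact absurd h1 (not_lt.2 h2.le)

theorem exists_shrink {n : ℕ} {α : Fin n → ℝ → EuclideanSpace ℝ (Fin 2)}
    (harc : ∀ i, IsArc (α i))
    (hb : ∀ i, ∀ s ∈ Icc (0 : ℝ) 1, α i s ∈ ball (0 : EuclideanSpace ℝ (Fin 2)) 1)
    (hdisj : ∀ i j, i ≠ j → Disjoint (α i '' Icc 0 1) (α j '' Icc 0 1)) {c : ℝ} (hc : 0 < c)
    (hc1 : c ≤ 1) :
    ∃ Ψ : ℝ → EuclideanSpace ℝ (Fin 2) → EuclideanSpace ℝ (Fin 2),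
      IsIsotopy (ball 0 1) Ψ ∧ ∀ i, ∀ s ∈ Icc (0 : ℝ) 1, Ψ 1 (α i s) = α i (c * s) := by
  obtain ⟨W, hWo, hWb, hαW, hWd⟩ := shrink_separate harc hb hdisj
  choose Ψ hΨ hΨ1 using fun i => shrink_one (harc i) (hWo i) (hαW i) hc hc1
  have hmem : ∀ s ∈ Icc (0 : ℝ) 1, c * s ∈ Icc (0 : ℝ) 1 := fun s hs =>
    ⟨mul_nonneg hc.le hs.1, mul_le_one₀ hc1 hs.1 hs.2⟩
  have key : ∀ S : Finset (Fin n),
      ∃ Θ : ℝ → EuclideanSpace ℝ (Fin 2) → EuclideanSpace ℝ (Fin 2),
        IsIsotopy (ball 0 1) Θ ∧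
        (∀ i ∈ S, ∀ s ∈ Icc (0 : ℝ) 1, Θ 1 (α i s) = α i (c * s)) ∧
        ∀ x, (∀ i ∈ S, x ∉ W i) → Θ 1 x = x := by
    intro S
    induction S using Finset.induction_on with
    | empty =>
      exact ⟨fun _ x => x, isIsotopy_id _, by simp, fun x _ => rfl⟩
    | insert i S hi ih =>
      obtain ⟨Θ, hΘ, hΘ1, hΘ2⟩ := ih
      refine ⟨fun s x => Ψ i s (Θ s x), ((hΨ i).mono (hWb i)).comp hΘ, ?_, ?_⟩
      · intro j hj s hs
        rcases Finset.mem_insert.1 hj with rfl | hj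
        · have h1 : Θ 1 (α j s) = α j s := by
            refine hΘ2 _ fun k hk hx => ?_
            have hkj : k ≠ j := fun h => hi (h ▸ hk)
            exact disjoint_left.1 (hWd k j hkj) hx (hαW j (mem_image_of_mem _ hs))
          show Ψ j 1 (Θ 1 (α j s)) = _
          rw [h1]
          exact hΨ1 j s hs
        · show Ψ i 1 (Θ 1 (α j s)) = _
          rw [hΘ1 j hj s hs]
          refine (hΨ i).outside 1 _ fun hx => ?_
          have hij : i ≠ j := fun h => hi (h ▸ hj)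
          exact disjoint_left.1 (hWd i j hij) hx (hαW j (mem_image_of_mem _ (hmem s hs)))
      · intro x hx
        show Ψ i 1 (Θ 1 x) = x
        rw [hΘ2 x fun k hk => hx k (Finset.mem_insert_of_mem hk)]
        exact (hΨ i).outside 1 x (hx i (Finset.mem_insert_self i S))
  obtain ⟨Θ, hΘ, hΘ1, -⟩ := key Finset.univ
  exact ⟨Θ, hΘ, fun i s hs => hΘ1 i (Finset.mem_univ i) s hs⟩

end Pool.Agent.Lib_MP_752436_rb
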