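import Pool.Agent.Lib_MP_752436_rb.Defs
import Pool.Agent.Lib_MP_752436_gt.Defs

/-!
PIECE REPARAM: the mean curvature vector and the area element under a change of parameters.

Let `L = fderiv ℝ φ x`, `a i j` its matrix (`L e_i = a i 0 e_0 + a i 1 e_1`). Then
`d1 (F ∘ φ) i x = ∑ k, a i k • d1 F k (φ x)`, so the new metric is `A g Aᵀ` and
`gdet (F ∘ φ) x = gdet F (φ x) * (det L)^2`. The second derivative of `F ∘ φ` is
`D²F (L u, L v) + DF (D²φ (u, v))`, the last term is tangent to the surface; the trace of the first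
term with respect to the new metric is the trace of `D²F` with respect to the old one (2x2
computation, `field_simp; ring`), and the tangent planes agree. The working forms `meanCurv`, `d2`,
`meanCurvature_eq` are in `Lib_MP_752436_gt/Defs.lean` (`meanCurvature F x = meanCurv F x`).
-/

open MeasureTheory Metric Set
open scoped ContDiff Topology

namespace Pool.Agent.Lib_MP_752436_rb

open Pool.Agent.Lib_MP_752436_gt

private theorem rp_decomp (w : EuclideanSpace ℝ (Fin 2)) :
    w = w 0 • EuclideanSpace.single 0 (1 : ℝ) + w 1 • EuclideanSpace.single 1 (1 : ℝ) := by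
  ext j
  fin_cases j <;> simp

/-- the values of a linear map of the plane in terms of the basis -/
private theorem rp_apply {V : Type*} [NormedAddCommGroup V] [NormedSpace ℝ V]
    (T : EuclideanSpace ℝ (Fin 2) →L[ℝ] V) (w : EuclideanSpace ℝ (Fin 2)) :
    T w = w 0 • T (EuclideanSpace.single 0 (1 : ℝ)) + w 1 • T (EuclideanSpace.single 1 (1 : ℝ)) := by
  conv_lhs => rw [rp_decomp w]
  rw [map_add, map_smul, map_smul]

private theorem rp_det (L : EuclideanSpace ℝ (Fin 2) →L[ℝ] EuclideanSpace ℝ (Fin 2)) :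
    L.det = L (EuclideanSpace.single 0 1) 0 * L (EuclideanSpace.single 1 1) 1 -
      L (EuclideanSpace.single 0 1) 1 * L (EuclideanSpace.single 1 1) 0 := by
  have h : L.det = LinearMap.det (L : EuclideanSpace ℝ (Fin 2) →ₗ[ℝ] EuclideanSpace ℝ (Fin 2)) :=
    rfl
  rw [h, ← LinearMap.det_toMatrix (EuclideanSpace.basisFun (Fin 2) ℝ).toBasis,
    Matrix.det_fin_two]
  simp only [LinearMap.toMatrix_apply, OrthonormalBasis.coe_toBasis, EuclideanSpace.basisFun_apply,
    OrthonormalBasis.coe_toBasis_repr_apply, EuclideanSpace.basisFun_repr]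
  simp only [ContinuousLinearMap.coe_coe]
  ring

private theorem rp_d1 {F : EuclideanSpace ℝ (Fin 2) → EuclideanSpace ℝ (Fin 4)}
    {φ : EuclideanSpace ℝ (Fin 2) → EuclideanSpace ℝ (Fin 2)} (hF : ContDiff ℝ ∞ F)
    (hφ : ContDiff ℝ ∞ φ) (x : EuclideanSpace ℝ (Fin 2)) (i : Fin 2) :
    d1 (fun y => F (φ y)) i x = fderiv ℝ φ x (EuclideanSpace.single i 1) 0 • d1 F 0 (φ x) +
      fderiv ℝ φ x (EuclideanSpace.single i 1) 1 • d1 F 1 (φ x) := by
  have h : fderiv ℝ (fun y => F (φ y)) x = (fderiv ℝ F (φ x)).comp (fderiv ℝ φ x) :=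
    fderiv_comp x ((hF.differentiable (by simp)) _) ((hφ.differentiable (by simp)) _)
  unfold d1
  rw [h, ContinuousLinearMap.comp_apply, rp_apply (fderiv ℝ F (φ x))]

theorem gdet_comp_reparam {F : EuclideanSpace ℝ (Fin 2) → EuclideanSpace ℝ (Fin 4)}
    {φ : EuclideanSpace ℝ (Fin 2) → EuclideanSpace ℝ (Fin 2)} (hF : ContDiff ℝ ∞ F)
    (hφ : ContDiff ℝ ∞ φ) (x : EuclideanSpace ℝ (Fin 2)) :
    gdet (fun y => F (φ y)) x = gdet F (φ x) * (fderiv ℝ φ x).det ^ 2 := by
  unfold gdet gm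
  rw [rp_det, rp_d1 hF hφ, rp_d1 hF hφ]
  simp only [inner_add_left, inner_add_right, inner_smul_left, inner_smul_right, conj_trivial]
  rw [real_inner_comm (d1 F 0 (φ x)) (d1 F 1 (φ x))]
  ring

private theorem rp_proj {U W : Submodule ℝ (EuclideanSpace ℝ (Fin 4))} (h : U = W)
    (v : EuclideanSpace ℝ (Fin 4)) : Uᗮ.starProjection v = Wᗮ.starProjection v := by
  subst h
  rfl

/-- the second derivatives of a composition -/
private theorem rp_d2 {F : EuclideanSpace ℝ (Fin 2) → EuclideanSpace ℝ (Fin 4)}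
    {φ : EuclideanSpace ℝ (Fin 2) → EuclideanSpace ℝ (Fin 2)} (hF : ContDiff ℝ ∞ F)
    (hφ : ContDiff ℝ ∞ φ) (x : EuclideanSpace ℝ (Fin 2)) (i j : Fin 2) :
    ∃ c : EuclideanSpace ℝ (Fin 2), d2 (fun y => F (φ y)) i j x =
      fderiv ℝ (fderiv ℝ F) (φ x) (fderiv ℝ φ x (EuclideanSpace.single i 1))
        (fderiv ℝ φ x (EuclideanSpace.single j 1)) + fderiv ℝ F (φ x) c := by
  have h : fderiv ℝ (fun y => F (φ y)) = fun y => (fderiv ℝ F (φ y)).comp (fderiv ℝ φ y) := by
    funext y
    exact fderiv_comp y ((hF.differentiable (by simp)) _) ((hφ.differentiable (by simp)) _)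
  have h1 : HasFDerivAt (fderiv ℝ F) (fderiv ℝ (fderiv ℝ F) (φ x)) (φ x) :=
    (((hF.fderiv_right (m := ∞) (by simp)).differentiable (by simp)) _).hasFDerivAt
  have h2 : HasFDerivAt φ (fderiv ℝ φ x) x := ((hφ.differentiable (by simp)) x).hasFDerivAt
  have h3 : HasFDerivAt (fderiv ℝ φ) (fderiv ℝ (fderiv ℝ φ) x) x :=
    (((hφ.fderiv_right (m := ∞) (by simp)).differentiable (by simp)) _).hasFDerivAt
  have h4 : HasFDerivAt (fun y => fderiv ℝ F (φ y))
      ((fderiv ℝ (fderiv ℝ F) (φ x)).comp (fderiv ℝ φ x)) x := h1.comp x h2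
  have h5 := h4.clm_comp h3
  refine ⟨fderiv ℝ (fderiv ℝ φ) x (EuclideanSpace.single i 1) (EuclideanSpace.single j 1), ?_⟩
  unfold d2
  rw [h, h5.fderiv]
  simp
  abel

theorem meanCurvature_comp_reparam {F : EuclideanSpace ℝ (Fin 2) → EuclideanSpace ℝ (Fin 4)}
    {φ : EuclideanSpace ℝ (Fin 2) → EuclideanSpace ℝ (Fin 2)} (hF : ContDiff ℝ ∞ F)
    (hφ : ContDiff ℝ ∞ φ) {x : EuclideanSpace ℝ (Fin 2)} (hdet : (fderiv ℝ φ x).det ≠ 0)
    (him : Function.Injective (fderiv ℝ F (φ x))) :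
    meanCurvature (fun y => F (φ y)) x = meanCurvature F (φ x) := by
  have hFφ : ContDiff ℝ ∞ (fun y => F (φ y)) := hF.comp hφ
  rw [meanCurvature_eq hFφ, meanCurvature_eq hF]
  unfold meanCurv
  have hg := gdet_comp_reparam hF hφ x
  set a00 := fderiv ℝ φ x (EuclideanSpace.single 0 1) 0 with ha00
  set a01 := fderiv ℝ φ x (EuclideanSpace.single 0 1) 1 with ha01
  set a10 := fderiv ℝ φ x (EuclideanSpace.single 1 1) 0 with ha10
  set a11 := fderiv ℝ φ x (EuclideanSpace.single 1 1) 1 with ha11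
  have hD : (fderiv ℝ φ x).det = a00 * a11 - a01 * a10 := rp_det _
  set v0 := d1 F 0 (φ x) with hv0
  set v1 := d1 F 1 (φ x) with hv1
  have hd0 : d1 (fun y => F (φ y)) 0 x = a00 • v0 + a01 • v1 := rp_d1 hF hφ x 0
  have hd1 : d1 (fun y => F (φ y)) 1 x = a10 • v0 + a11 • v1 := rp_d1 hF hφ x 1
  rw [hD] at hdet hg
  -- the tangent planes agree
  have hspan : Submodule.span ℝ {d1 (fun y => F (φ y)) 0 x, d1 (fun y => F (φ y)) 1 x} =
      Submodule.span ℝ {v0, v1} := by
    rw [hd0, hd1]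
    apply le_antisymm
    · rw [Submodule.span_le]
      rintro w (rfl | rfl)
      · exact Submodule.mem_span_pair.2 ⟨_, _, rfl⟩
      · exact Submodule.mem_span_pair.2 ⟨_, _, rfl⟩
    · rw [Submodule.span_le]
      rintro w (rfl | rfl)
      · refine Submodule.mem_span_pair.2 ⟨a11 / (a00 * a11 - a01 * a10),
          -a01 / (a00 * a11 - a01 * a10), ?_⟩
        have e1 : a11 / (a00 * a11 - a01 * a10) * a00 +
          -a01 / (a00 * a11 - a01 * a10) * a10 = 1 := by
          rw [div_mul_eq_mul_div, div_mul_eq_mul_div, ← add_div, div_eq_one_iff_eq hdet]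
          ring
        have e2 : a11 / (a00 * a11 - a01 * a10) * a01 +
          -a01 / (a00 * a11 - a01 * a10) * a11 = 0 := by
          rw [div_mul_eq_mul_div, div_mul_eq_mul_div, ← add_div]
          rw [show a11 * a01 + -a01 * a11 = 0 by ring, zero_div]
        calc (a11 / (a00 * a11 - a01 * a10)) • (a00 • v0 + a01 • v1) +
              (-a01 / (a00 * a11 - a01 * a10)) • (a10 • v0 + a11 • v1)
            = (a11 / (a00 * a11 - a01 * a10) * a00 +
              -a01 / (a00 * a11 - a01 * a10) * a10) • v0 +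
              (a11 / (a00 * a11 - a01 * a10) * a01 +
              -a01 / (a00 * a11 - a01 * a10) * a11) • v1 := by module
          _ = v0 := by rw [e1, e2, one_smul, zero_smul, add_zero]
      · refine Submodule.mem_span_pair.2 ⟨-a10 / (a00 * a11 - a01 * a10),
          a00 / (a00 * a11 - a01 * a10), ?_⟩
        have e1 : -a10 / (a00 * a11 - a01 * a10) * a00 +
          a00 / (a00 * a11 - a01 * a10) * a10 = 0 := by
          rw [div_mul_eq_mul_div, div_mul_eq_mul_div, ← add_div]
          rw [show -a10 * a00 + a00 * a10 = 0 by ring, zero_div]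
        have e2 : -a10 / (a00 * a11 - a01 * a10) * a01 +
          a00 / (a00 * a11 - a01 * a10) * a11 = 1 := by
          rw [div_mul_eq_mul_div, div_mul_eq_mul_div, ← add_div, div_eq_one_iff_eq hdet]
          ring
        calc (-a10 / (a00 * a11 - a01 * a10)) • (a00 • v0 + a01 • v1) +
              (a00 / (a00 * a11 - a01 * a10)) • (a10 • v0 + a11 • v1)
            = (-a10 / (a00 * a11 - a01 * a10) * a00 +
              a00 / (a00 * a11 - a01 * a10) * a10) • v0 +
              (-a10 / (a00 * a11 - a01 * a10) * a01 +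
              a00 / (a00 * a11 - a01 * a10) * a11) • v1 := by module
          _ = v1 := by rw [e1, e2, one_smul, zero_smul, zero_add]
  rw [rp_proj hspan]
  set P := ((Submodule.span ℝ {v0, v1})ᗮ).starProjection with hP
  -- the projection kills tangent vectors
  have hPt : ∀ c, P (fderiv ℝ F (φ x) c) = 0 := by
    intro c
    have hmem : fderiv ℝ F (φ x) c ∈ Submodule.span ℝ {v0, v1} := by
      rw [rp_apply (fderiv ℝ F (φ x)) c]
      exact Submodule.mem_span_pair.2 ⟨_, _, rfl⟩
    rw [hP]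
    rw [Submodule.starProjection_apply_eq_zero_iff]
    exact Submodule.le_orthogonal_orthogonal _ hmem
  -- second derivatives
  set S : Fin 2 → Fin 2 → EuclideanSpace ℝ (Fin 4) := fun i j => P (d2 F i j (φ x)) with hS
  have hsymm : d2 F 1 0 (φ x) = d2 F 0 1 (φ x) := by
    unfold d2
    have h : IsSymmSndFDerivAt ℝ F (φ x) := hF.contDiffAt.isSymmSndFDerivAt (by
      simp only [minSmoothness_of_isRCLikeNormedField]
      exact WithTop.coe_le_coe.2 (le_top : (2 : ℕ∞) ≤ ⊤))
    exact h.eq _ _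
  have hPd : ∀ i j, P (d2 (fun y => F (φ y)) i j x) =
      (fderiv ℝ φ x (EuclideanSpace.single i 1) 0 * fderiv ℝ φ x (EuclideanSpace.single j 1) 0) •
        S 0 0 +
      (fderiv ℝ φ x (EuclideanSpace.single i 1) 0 * fderiv ℝ φ x (EuclideanSpace.single j 1) 1 +
        fderiv ℝ φ x (EuclideanSpace.single i 1) 1 * fderiv ℝ φ x (EuclideanSpace.single j 1) 0) •
        S 0 1 +
      (fderiv ℝ φ x (EuclideanSpace.single i 1) 1 * fderiv ℝ φ x (EuclideanSpace.single j 1) 1) •
        S 1 1 := by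
    intro i j
    obtain ⟨c, hc⟩ := rp_d2 hF hφ x i j
    rw [hc, map_add, hPt c, add_zero]
    have e1 : fderiv ℝ (fderiv ℝ F) (φ x) (fderiv ℝ φ x (EuclideanSpace.single i 1))
        (fderiv ℝ φ x (EuclideanSpace.single j 1)) =
        (fderiv ℝ φ x (EuclideanSpace.single i 1) 0 *
          fderiv ℝ φ x (EuclideanSpace.single j 1) 0) • d2 F 0 0 (φ x) +
        (fderiv ℝ φ x (EuclideanSpace.single i 1) 0 *
          fderiv ℝ φ x (EuclideanSpace.single j 1) 1) • d2 F 0 1 (φ x) +
        (fderiv ℝ φ x (EuclideanSpace.single i 1) 1 *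
          fderiv ℝ φ x (EuclideanSpace.single j 1) 0) • d2 F 1 0 (φ x) +
        (fderiv ℝ φ x (EuclideanSpace.single i 1) 1 *
          fderiv ℝ φ x (EuclideanSpace.single j 1) 1) • d2 F 1 1 (φ x) := by
      rw [rp_apply (fderiv ℝ (fderiv ℝ F) (φ x)) (fderiv ℝ φ x (EuclideanSpace.single i 1))]
      rw [_root_.add_apply, _root_.smul_apply, _root_.smul_apply]
      rw [rp_apply (fderiv ℝ (fderiv ℝ F) (φ x) (EuclideanSpace.single 0 1)),
        rp_apply (fderiv ℝ (fderiv ℝ F) (φ x) (EuclideanSpace.single 1 1))]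
      unfold d2
      module
    rw [e1, hsymm, map_add, map_add, map_add, map_smul, map_smul, map_smul, map_smul]
    simp only [hS]
    module
  -- the computation
  rw [map_smul, map_smul, map_add, map_add, map_sub, map_sub]
  simp only [map_smul]
  rw [hPd 0 0, hPd 0 1, hPd 1 1, hg]
  rw [show P (d2 F 0 0 (φ x)) = S 0 0 from rfl, show P (d2 F 0 1 (φ x)) = S 0 1 from rfl,
    show P (d2 F 1 1 (φ x)) = S 1 1 from rfl]
  have hg00 : gm (fun y => F (φ y)) 0 0 x = a00 * a00 * gm F 0 0 (φ x) +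
      2 * (a00 * a01) * gm F 0 1 (φ x) + a01 * a01 * gm F 1 1 (φ x) := by
    unfold gm
    rw [hd0]
    simp only [inner_add_left, inner_add_right, inner_smul_left, inner_smul_right, conj_trivial]
    rw [real_inner_comm v0 v1]
    ring
  have hg01 : gm (fun y => F (φ y)) 0 1 x = a00 * a10 * gm F 0 0 (φ x) +
      (a00 * a11 + a01 * a10) * gm F 0 1 (φ x) + a01 * a11 * gm F 1 1 (φ x) := by
    unfold gm
    rw [hd0, hd1]
    simp only [inner_add_left, inner_add_right, inner_smul_left, inner_smul_right, conj_trivial]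
    rw [real_inner_comm v0 v1]
    ring
  have hg11 : gm (fun y => F (φ y)) 1 1 x = a10 * a10 * gm F 0 0 (φ x) +
      2 * (a10 * a11) * gm F 0 1 (φ x) + a11 * a11 * gm F 1 1 (φ x) := by
    unfold gm
    rw [hd1]
    simp only [inner_add_left, inner_add_right, inner_smul_left, inner_smul_right, conj_trivial]
    rw [real_inner_comm v0 v1]
    ring
  rw [hg00, hg01, hg11]
  set g00 := gm F 0 0 (φ x)
  set g01 := gm F 0 1 (φ x)
  set g11 := gm F 1 1 (φ x)
  have hinv : (2 * (gdet F (φ x) * (a00 * a11 - a01 * a10) ^ 2))⁻¹ =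
      (2 * gdet F (φ x))⁻¹ * ((a00 * a11 - a01 * a10) ^ 2)⁻¹ := by
    rw [← mul_inv]
    ring_nf
  have hD2 : ((a00 * a11 - a01 * a10) ^ 2)⁻¹ * (a00 * a11 - a01 * a10) ^ 2 = 1 :=
    inv_mul_cancel₀ (pow_ne_zero 2 hdet)
  rw [hinv, mul_smul]
  congr 1
  calc _ = (((a00 * a11 - a01 * a10) ^ 2)⁻¹ * (a00 * a11 - a01 * a10) ^ 2) •
        (g11 • S 0 0 - (2 * g01) • S 0 1 + g00 • S 1 1) := by
        module
    _ = _ := by rw [hD2, one_smul]

end Pool.Agent.Lib_MP_752436_rb
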