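import Pool.Agent.Lib_MP_752436_rb.Defs

/-!
PIECE SQUEEZE: the maps `(x, y) ↦ (x, b y + (1 - b) G x)`.

They fix the graph of `G` pointwise, map the closed disc into itself, and have the smooth inverse
`(x, y) ↦ (x, (y - (1 - b) G x) / b)`; the determinant of the derivative is `b`.
-/

open MeasureTheory Metric Set
open scoped ContDiff Topology

namespace Pool.Agent.Lib_MP_752436_rb

open Pool.Agent.Lib_MP_752436_gt

/-- The fibrewise contraction to the graph of `G`. -/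
noncomputable def squeeze (G : ℝ → ℝ) (b : ℝ) (x : EuclideanSpace ℝ (Fin 2)) :
    EuclideanSpace ℝ (Fin 2) :=
  !₂[x 0, b * x 1 + (1 - b) * G (x 0)]

/-- The inverse of `squeeze G b`. -/
noncomputable def unsqueeze (G : ℝ → ℝ) (b : ℝ) (x : EuclideanSpace ℝ (Fin 2)) :
    EuclideanSpace ℝ (Fin 2) :=
  !₂[x 0, (x 1 - (1 - b) * G (x 0)) / b]

private theorem squeeze_contDiff_coord_aux (i : Fin 2) :
    ContDiff ℝ ∞ (fun p : ℝ × EuclideanSpace ℝ (Fin 2) => p.2 i) :=
  (EuclideanSpace.proj (𝕜 := ℝ) i).contDiff.comp contDiff_snd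

private theorem squeeze_contDiff_coord_aux' (i : Fin 2) :
    ContDiff ℝ ∞ (fun p : EuclideanSpace ℝ (Fin 2) => p i) :=
  (EuclideanSpace.proj (𝕜 := ℝ) i).contDiff

private theorem squeeze_mem_closedBall_aux (x : EuclideanSpace ℝ (Fin 2)) :
    x ∈ closedBall (0 : EuclideanSpace ℝ (Fin 2)) 1 ↔ x 0 ^ 2 + x 1 ^ 2 ≤ 1 := by
  rw [mem_closedBall_zero_iff, EuclideanSpace.norm_eq, Real.sqrt_le_left zero_le_one]
  simp [Fin.sum_univ_two]

theorem contDiff_squeeze {G : ℝ → ℝ} (hG : ContDiff ℝ ∞ G) :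
    ContDiff ℝ ∞ (fun p : ℝ × EuclideanSpace ℝ (Fin 2) => squeeze G p.1 p.2) := by
  have h0 : ContDiff ℝ ∞ (fun p : ℝ × EuclideanSpace ℝ (Fin 2) => p.2 0) :=
    squeeze_contDiff_coord_aux 0
  have h1 : ContDiff ℝ ∞ (fun p : ℝ × EuclideanSpace ℝ (Fin 2) => p.2 1) :=
    squeeze_contDiff_coord_aux 1
  have hf : ContDiff ℝ ∞ (fun p : ℝ × EuclideanSpace ℝ (Fin 2) => p.1) := contDiff_fst
  rw [contDiff_euclidean]
  intro i
  fin_cases i
  · simpa [squeeze] using h0
  · have h : ContDiff ℝ ∞ (fun p : ℝ × EuclideanSpace ℝ (Fin 2) =>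
        p.1 * p.2 1 + (1 - p.1) * G (p.2 0)) :=
      (hf.mul h1).add ((contDiff_const.sub hf).mul (hG.comp h0))
    simpa [squeeze] using h

theorem contDiff_unsqueeze {G : ℝ → ℝ} (hG : ContDiff ℝ ∞ G) (b : ℝ) :
    ContDiff ℝ ∞ (unsqueeze G b) := by
  have h0 : ContDiff ℝ ∞ (fun p : EuclideanSpace ℝ (Fin 2) => p 0) :=
    squeeze_contDiff_coord_aux' 0
  have h1 : ContDiff ℝ ∞ (fun p : EuclideanSpace ℝ (Fin 2) => p 1) :=
    squeeze_contDiff_coord_aux' 1
  rw [contDiff_euclidean]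
  intro i
  fin_cases i
  · simpa [unsqueeze] using h0
  · have h : ContDiff ℝ ∞ (fun p : EuclideanSpace ℝ (Fin 2) =>
        (p 1 - (1 - b) * G (p 0)) / b) :=
      (h1.sub (contDiff_const.mul (hG.comp h0))).div_const b
    simpa [unsqueeze] using h

theorem squeeze_one (G : ℝ → ℝ) (x : EuclideanSpace ℝ (Fin 2)) : squeeze G 1 x = x := by
  ext i
  fin_cases i <;> simp [squeeze]

theorem squeeze_unsqueeze (G : ℝ → ℝ) {b : ℝ} (hb : b ≠ 0) (x : EuclideanSpace ℝ (Fin 2)) :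
    squeeze G b (unsqueeze G b x) = x := by
  ext i
  fin_cases i
  · simp [squeeze, unsqueeze]
  · simp only [squeeze, unsqueeze]
    simp
    field_simp
    ring

theorem unsqueeze_squeeze (G : ℝ → ℝ) {b : ℝ} (hb : b ≠ 0) (x : EuclideanSpace ℝ (Fin 2)) :
    unsqueeze G b (squeeze G b x) = x := by
  ext i
  fin_cases i
  · simp [squeeze, unsqueeze]
  · simp only [squeeze, unsqueeze]
    simp
    field_simp

theorem squeeze_graph (G : ℝ → ℝ) (b : ℝ) {x : EuclideanSpace ℝ (Fin 2)} (hx : x 1 = G (x 0)) :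
    squeeze G b x = x := by
  ext i
  fin_cases i
  · simp [squeeze]
  · simp only [squeeze]
    simp
    rw [← hx]
    ring

/-- The closed disc is mapped into itself. -/
theorem squeeze_mem {G : ℝ → ℝ} (h1 : ∀ x, |x| < 1 → x ^ 2 + G x ^ 2 < 1)
    (h2 : ∀ x, 1 ≤ |x| → G x = 0) {b : ℝ} (hb0 : 0 < b) (hb1 : b ≤ 1)
    {x : EuclideanSpace ℝ (Fin 2)} (hx : x ∈ closedBall (0 : EuclideanSpace ℝ (Fin 2)) 1) :
    squeeze G b x ∈ closedBall (0 : EuclideanSpace ℝ (Fin 2)) 1 := by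
  rw [squeeze_mem_closedBall_aux] at hx ⊢
  have e0 : squeeze G b x 0 = x 0 := by simp [squeeze]
  have e1 : squeeze G b x 1 = b * x 1 + (1 - b) * G (x 0) := by simp [squeeze]
  rw [e0, e1]
  have hx1 : x 1 ^ 2 ≤ 1 - x 0 ^ 2 := by linarith
  have hG : G (x 0) ^ 2 ≤ 1 - x 0 ^ 2 := by
    rcases lt_or_ge |x 0| 1 with h | h
    · have := h1 _ h
      linarith
    · rw [h2 _ h]
      nlinarith [sq_nonneg (x 1)]
  have hb : 0 ≤ 1 - b := by linarith
  nlinarith [mul_nonneg hb0.le hb, sq_nonneg (x 1 - G (x 0)),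
    mul_nonneg (mul_nonneg hb0.le hb) (sq_nonneg (x 1 - G (x 0))),
    mul_nonneg hb0.le (sub_nonneg.2 hx1), mul_nonneg hb (sub_nonneg.2 hG)]

theorem det_fderiv_squeeze {G : ℝ → ℝ} (hG : ContDiff ℝ ∞ G) (b : ℝ)
    (x : EuclideanSpace ℝ (Fin 2)) : (fderiv ℝ (squeeze G b) x).det = b := by
  have hs : ContDiff ℝ ∞ (squeeze G b) :=
    (contDiff_squeeze hG).comp (contDiff_const.prodMk contDiff_id)
  have hd : DifferentiableAt ℝ (squeeze G b) x :=
    (hs.differentiable (by simp)).differentiableAt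
  have hGd : DifferentiableAt ℝ G (x 0) := (hG.differentiable (by simp)).differentiableAt
  have key : ∀ v : EuclideanSpace ℝ (Fin 2), ∀ i : Fin 2,
      fderiv ℝ (squeeze G b) x v i
        = deriv (fun t : ℝ => squeeze G b (x + t • v) i) 0 := by
    intro v i
    have hl : HasDerivAt (fun t : ℝ => x + t • v) v 0 := by
      have := ((hasDerivAt_id (0 : ℝ)).smul_const v).const_add x
      simpa using this
    have hd' : HasFDerivAt (squeeze G b) (fderiv ℝ (squeeze G b) x) (x + (0 : ℝ) • v) := by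
      simpa using hd.hasFDerivAt
    have h1 := hd'.comp_hasDerivAt (0 : ℝ) hl
    have h2 : HasDerivAt (fun t : ℝ => squeeze G b (x + t • v) i)
        (fderiv ℝ (squeeze G b) x v i) 0 := by
      have := ((EuclideanSpace.proj (𝕜 := ℝ) i).hasFDerivAt).comp_hasDerivAt (0 : ℝ) h1
      simpa [Function.comp_def] using this
    exact h2.deriv.symm
  have key0 : ∀ v : EuclideanSpace ℝ (Fin 2), fderiv ℝ (squeeze G b) x v 0 = v 0 := by
    intro v
    rw [key v 0]
    have : (fun t : ℝ => squeeze G b (x + t • v) 0) = fun t : ℝ => x 0 + t * v 0 := by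
      funext t
      simp [squeeze]
    rw [this]
    have h : HasDerivAt (fun t : ℝ => x 0 + t * v 0) (1 * v 0) 0 :=
      ((hasDerivAt_id (0 : ℝ)).mul_const (v 0)).const_add (x 0)
    rw [h.deriv, one_mul]
  have key1 : ∀ v : EuclideanSpace ℝ (Fin 2), fderiv ℝ (squeeze G b) x v 1
      = b * v 1 + (1 - b) * (deriv G (x 0) * v 0) := by
    intro v
    rw [key v 1]
    have : (fun t : ℝ => squeeze G b (x + t • v) 1)
        = fun t : ℝ => b * (x 1 + t * v 1) + (1 - b) * G (x 0 + t * v 0) := by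
      funext t
      simp [squeeze]
    rw [this]
    have ha : HasDerivAt (fun t : ℝ => x 1 + t * v 1) (v 1) 0 := by
      simpa using ((hasDerivAt_id (0 : ℝ)).mul_const (v 1)).const_add (x 1)
    have hb : HasDerivAt (fun t : ℝ => x 0 + t * v 0) (v 0) 0 := by
      simpa using ((hasDerivAt_id (0 : ℝ)).mul_const (v 0)).const_add (x 0)
    have hG' : HasDerivAt G (deriv G (x 0)) (x 0 + 0 * v 0) := by
      rw [zero_mul, add_zero]
      exact hGd.hasDerivAt
    have hc := hG'.comp (0 : ℝ) hb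
    exact ((ha.const_mul b).add (hc.const_mul (1 - b))).deriv
  have hdet : (fderiv ℝ (squeeze G b) x).det
      = LinearMap.det ((fderiv ℝ (squeeze G b) x : EuclideanSpace ℝ (Fin 2) →L[ℝ] _) :
        EuclideanSpace ℝ (Fin 2) →ₗ[ℝ] EuclideanSpace ℝ (Fin 2)) := rfl
  rw [hdet, ← LinearMap.det_toMatrix (EuclideanSpace.basisFun (Fin 2) ℝ).toBasis,
    Matrix.det_fin_two]
  simp [LinearMap.toMatrix_apply, key0, key1]

end Pool.Agent.Lib_MP_752436_rb
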