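import Pool.Agent.Lib_MP_752436_rb.Push
import Pool.Agent.Lib_MP_752436_rb.Reparam
import Pool.Agent.Lib_MP_752436_rb.Squeeze
import Pool.Agent.Lib_MP_752436_gt.Meas

/-!
PIECE WSMALL: thin discs of small height have small Willmore energy.

`wdens g h x = ‖meanCurvature (lift4 g h) x‖ ^ 2 * √(gdet (lift4 g h) x)`. Let `ψ = κ' ∘ squeeze G b`.
(1) `lift4 (f ∘ ψ) (lam h) = lift4 f (lam h ∘ ψ⁻¹) ∘ ψ`, so by `gdet_comp_reparam` and
`meanCurvature_comp_reparam` the integrand at `x` is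
`wdens f (lam h ∘ ψ⁻¹) (ψ x) * |det Dψ x|`, and `det Dψ x = det Dκ' (squeeze x) * b`.
(2) `(lam, y) ↦ wdens f (lam h') y` is continuous on `ℝ × closedBall 0 1` (`f` is an immersion
there, so `gdet > 0`; use the formula `meanCurv_eq` of `Lib_MP_752436_gt/Calc.lean` for the
projection, cf. `continuousOn_meanCurv`), at `lam = 0` it does not depend on `h'`, with maximum
`C0` on the closed disc. So for `lam` small it is `≤ C0 + 1` on the closed disc.
(3) `|det Dκ'| ≤ C1` on the closed disc; choose `b` with `(C0 + 1) * C1 * b * π < ε`.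
-/

open MeasureTheory Metric Set
open scoped ContDiff Topology

namespace Pool.Agent.Lib_MP_752436_rb

open Pool.Agent.Lib_MP_752436_gt

private theorem wsmall_d1 {A E : EuclideanSpace ℝ (Fin 2) → EuclideanSpace ℝ (Fin 4)}
    (hA : ContDiff ℝ ∞ A) (hE : ContDiff ℝ ∞ E) (lam : ℝ) (i : Fin 2)
    (y : EuclideanSpace ℝ (Fin 2)) :
    d1 (fun z => A z + lam • E z) i y = d1 A i y + lam • d1 E i y := by
  have h1 : HasFDerivAt (fun z => A z + lam • E z) (fderiv ℝ A y + lam • fderiv ℝ E y) y :=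
    ((hA.differentiable (by simp)) y).hasFDerivAt.add
      (((hE.differentiable (by simp)) y).hasFDerivAt.const_smul lam)
  unfold d1
  rw [h1.fderiv]
  rfl

private theorem wsmall_d2 {A E : EuclideanSpace ℝ (Fin 2) → EuclideanSpace ℝ (Fin 4)}
    (hA : ContDiff ℝ ∞ A) (hE : ContDiff ℝ ∞ E) (lam : ℝ) (i j : Fin 2)
    (y : EuclideanSpace ℝ (Fin 2)) :
    d2 (fun z => A z + lam • E z) i j y = d2 A i j y + lam • d2 E i j y := by
  have h0 : fderiv ℝ (fun z => A z + lam • E z) = fun y => fderiv ℝ A y + lam • fderiv ℝ E y := by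
    funext y
    exact (((hA.differentiable (by simp)) y).hasFDerivAt.add
      (((hE.differentiable (by simp)) y).hasFDerivAt.const_smul lam)).fderiv
  have hA2 : ContDiff ℝ ∞ (fderiv ℝ A) := hA.fderiv_right (by simp)
  have hE2 : ContDiff ℝ ∞ (fderiv ℝ E) := hE.fderiv_right (by simp)
  have h1 : HasFDerivAt (fun y => fderiv ℝ A y + lam • fderiv ℝ E y)
      (fderiv ℝ (fderiv ℝ A) y + lam • fderiv ℝ (fderiv ℝ E) y) y :=
    ((hA2.differentiable (by simp)) y).hasFDerivAt.add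
      (((hE2.differentiable (by simp)) y).hasFDerivAt.const_smul lam)
  unfold d2
  rw [h0, h1.fderiv]
  rfl

/-- The Willmore integrand of `A + lam E` depends continuously on `lam` and the point. -/
private theorem wsmall_cont {A E : EuclideanSpace ℝ (Fin 2) → EuclideanSpace ℝ (Fin 4)}
    (hA : ContDiff ℝ ∞ A) (hE : ContDiff ℝ ∞ E) :
    ContinuousOn (fun p : ℝ × EuclideanSpace ℝ (Fin 2) =>
      ‖meanCurv (fun z => A z + p.1 • E z) p.2‖ ^ 2 *
        Real.sqrt (gdet (fun z => A z + p.1 • E z) p.2))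
      {p | 0 < gdet (fun z => A z + p.1 • E z) p.2} := by
  have k1 : ∀ i, Continuous (fun p : ℝ × EuclideanSpace ℝ (Fin 2) =>
      d1 (fun z => A z + p.1 • E z) i p.2) := by
    intro i
    simp only [wsmall_d1 hA hE]
    exact ((continuous_d1 hA i).comp continuous_snd).add
      (continuous_fst.smul ((continuous_d1 hE i).comp continuous_snd))
  have k2 : ∀ i j, Continuous (fun p : ℝ × EuclideanSpace ℝ (Fin 2) =>
      d2 (fun z => A z + p.1 • E z) i j p.2) := by
    intro i j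
    simp only [wsmall_d2 hA hE]
    exact ((continuous_d2 hA i j).comp continuous_snd).add
      (continuous_fst.smul ((continuous_d2 hE i j).comp continuous_snd))
  have kg : ∀ i j, Continuous (fun p : ℝ × EuclideanSpace ℝ (Fin 2) =>
      gm (fun z => A z + p.1 • E z) i j p.2) := fun i j => (k1 i).inner (k1 j)
  have kd : Continuous (fun p : ℝ × EuclideanSpace ℝ (Fin 2) =>
      gdet (fun z => A z + p.1 • E z) p.2) :=
    ((kg 0 0).mul (kg 1 1)).sub ((kg 0 1).pow 2)
  set S : Set (ℝ × EuclideanSpace ℝ (Fin 2)) := {p | 0 < gdet (fun z => A z + p.1 • E z) p.2}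
    with hS
  have hh : ContinuousOn (fun p : ℝ × EuclideanSpace ℝ (Fin 2) =>
      hvec (fun z => A z + p.1 • E z) p.2) S := by
    unfold hvec
    refine ContinuousOn.smul
      (f := fun p : ℝ × EuclideanSpace ℝ (Fin 2) => (2 * gdet (fun z => A z + p.1 • E z) p.2)⁻¹)
      (g := fun p : ℝ × EuclideanSpace ℝ (Fin 2) =>
        gm (fun z => A z + p.1 • E z) 1 1 p.2 • d2 (fun z => A z + p.1 • E z) 0 0 p.2
        - (2 * gm (fun z => A z + p.1 • E z) 0 1 p.2) • d2 (fun z => A z + p.1 • E z) 0 1 p.2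
        + gm (fun z => A z + p.1 • E z) 0 0 p.2 • d2 (fun z => A z + p.1 • E z) 1 1 p.2) ?_
      (Continuous.continuousOn ?_)
    · have h2 : Continuous fun p : ℝ × EuclideanSpace ℝ (Fin 2) =>
          2 * gdet (fun z => A z + p.1 • E z) p.2 := continuous_const.mul kd
      refine ContinuousOn.inv₀ h2.continuousOn ?_
      intro x hx
      have : 0 < gdet (fun z => A z + x.1 • E z) x.2 := hx
      positivity
    · have h2 : Continuous fun p : ℝ × EuclideanSpace ℝ (Fin 2) =>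
          2 * gm (fun z => A z + p.1 • E z) 0 1 p.2 := continuous_const.mul (kg 0 1)
      exact (((kg 1 1).smul (k2 0 0)).sub (h2.smul (k2 0 1))).add ((kg 0 0).smul (k2 1 1))
  have c0 := (k1 0).continuousOn (s := S)
  have c1 := (k1 1).continuousOn (s := S)
  have g00 := (kg 0 0).continuousOn (s := S)
  have g01 := (kg 0 1).continuousOn (s := S)
  have g11 := (kg 1 1).continuousOn (s := S)
  have gd := kd.continuousOn (s := S)
  have hne : ∀ p ∈ S, gdet (fun z => A z + p.1 • E z) p.2 ≠ 0 := fun p hp => ne_of_gt hp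
  have hm : ContinuousOn (fun p : ℝ × EuclideanSpace ℝ (Fin 2) =>
      meanCurv (fun z => A z + p.1 • E z) p.2) S := by
    refine ContinuousOn.congr (f := fun p : ℝ × EuclideanSpace ℝ (Fin 2) =>
        hvec (fun z => A z + p.1 • E z) p.2
        - ((gm (fun z => A z + p.1 • E z) 1 1 p.2
              * inner ℝ (hvec (fun z => A z + p.1 • E z) p.2) (d1 (fun z => A z + p.1 • E z) 0 p.2)
            - gm (fun z => A z + p.1 • E z) 0 1 p.2
              * inner ℝ (hvec (fun z => A z + p.1 • E z) p.2) (d1 (fun z => A z + p.1 • E z) 1 p.2))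
            / gdet (fun z => A z + p.1 • E z) p.2) • d1 (fun z => A z + p.1 • E z) 0 p.2
        - ((gm (fun z => A z + p.1 • E z) 0 0 p.2
              * inner ℝ (hvec (fun z => A z + p.1 • E z) p.2) (d1 (fun z => A z + p.1 • E z) 1 p.2)
            - gm (fun z => A z + p.1 • E z) 0 1 p.2
              * inner ℝ (hvec (fun z => A z + p.1 • E z) p.2) (d1 (fun z => A z + p.1 • E z) 0 p.2))
            / gdet (fun z => A z + p.1 • E z) p.2) • d1 (fun z => A z + p.1 • E z) 1 p.2) ?_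
      (fun p hp => meanCurv_eq hp)
    refine ContinuousOn.sub (ContinuousOn.sub hh ?_) ?_
    · exact (((g11.mul (hh.inner c0)).sub (g01.mul (hh.inner c1))).div gd hne).smul c0
    · exact (((g00.mul (hh.inner c1)).sub (g01.mul (hh.inner c0))).div gd hne).smul c1
  exact (hm.norm.pow 2).mul gd.sqrt

private theorem wsmall_det_comp
    (A B : EuclideanSpace ℝ (Fin 2) →L[ℝ] EuclideanSpace ℝ (Fin 2)) :
    (A.comp B).det = A.det * B.det :=
  LinearMap.det_comp (A : EuclideanSpace ℝ (Fin 2) →ₗ[ℝ] EuclideanSpace ℝ (Fin 2))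
    (B : EuclideanSpace ℝ (Fin 2) →ₗ[ℝ] EuclideanSpace ℝ (Fin 2))

private theorem wsmall_coord {n : ℕ} {G : EuclideanSpace ℝ (Fin 2) → EuclideanSpace ℝ (Fin n)}
    {x : EuclideanSpace ℝ (Fin 2)} (hG : DifferentiableAt ℝ G x) (i : Fin n)
    (u : EuclideanSpace ℝ (Fin 2)) :
    (fderiv ℝ G x u) i = fderiv ℝ (fun y => G y i) x u := by
  have h1 : HasFDerivAt (fun y => G y i)
      ((EuclideanSpace.proj i : EuclideanSpace ℝ (Fin n) →L[ℝ] ℝ).comp (fderiv ℝ G x)) x :=
    (EuclideanSpace.proj i : EuclideanSpace ℝ (Fin n) →L[ℝ] ℝ).hasFDerivAt.comp x hG.hasFDerivAt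
  rw [h1.fderiv]
  rfl

private theorem wsmall_smooth {g : EuclideanSpace ℝ (Fin 2) → EuclideanSpace ℝ (Fin 3)}
    {h : EuclideanSpace ℝ (Fin 2) → ℝ} (hg : ContDiff ℝ ∞ g) (hh : ContDiff ℝ ∞ h) :
    ContDiff ℝ ∞ (lift4 g h) := by
  have hc := contDiff_euclidean.1 hg
  refine contDiff_euclidean.2 (fun i => ?_)
  fin_cases i
  · exact hc 0
  · exact hc 1
  · exact hc 2
  · exact hh

private theorem wsmall_immersion {g : EuclideanSpace ℝ (Fin 2) → EuclideanSpace ℝ (Fin 3)}
    {h : EuclideanSpace ℝ (Fin 2) → ℝ} (hg : ContDiff ℝ ∞ g) (hh : ContDiff ℝ ∞ h)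
    {x : EuclideanSpace ℝ (Fin 2)} (hx : Function.Injective (fderiv ℝ g x)) :
    Function.Injective (fderiv ℝ (lift4 g h) x) := by
  intro u v huv
  apply hx
  have hF := ((wsmall_smooth hg hh).differentiable (by simp)) x
  have hG := (hg.differentiable (by simp)) x
  have key : ∀ i : Fin 3, (fderiv ℝ g x u) i = (fderiv ℝ g x v) i := by
    intro i
    rw [wsmall_coord hG, wsmall_coord hG]
    have h1 : (fun y => g y i) = fun y => lift4 g h y i.castSucc := by
      funext y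
      fin_cases i <;> simp [lift4]
    rw [h1, ← wsmall_coord hF, ← wsmall_coord hF, huv]
  ext i
  exact key i

private theorem wsmall_split (g : EuclideanSpace ℝ (Fin 2) → EuclideanSpace ℝ (Fin 3))
    (h : EuclideanSpace ℝ (Fin 2) → ℝ) (lam : ℝ) :
    (fun z => lift4 g (fun _ => 0) z + lam • lift4 (fun _ => 0) h z)
      = lift4 g (fun z => lam * h z) := by
  funext z
  ext i
  fin_cases i <;> simp [lift4]

theorem exists_small {f : EuclideanSpace ℝ (Fin 2) → EuclideanSpace ℝ (Fin 3)}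
    (hf : ContDiff ℝ ∞ f)
    (him : ∀ x ∈ closedBall (0 : EuclideanSpace ℝ (Fin 2)) 1, Function.Injective (fderiv ℝ f x))
    {κ κ' : EuclideanSpace ℝ (Fin 2) → EuclideanSpace ℝ (Fin 2)} (hκ : ContDiff ℝ ∞ κ)
    (hκ' : ContDiff ℝ ∞ κ') (hinv : ∀ x, κ (κ' x) = x) (hinv' : ∀ x, κ' (κ x) = x)
    (hκb : MapsTo κ' (closedBall 0 1) (closedBall 0 1))
    {G : ℝ → ℝ} (hG : ContDiff ℝ ∞ G) (h1 : ∀ x, |x| < 1 → x ^ 2 + G x ^ 2 < 1)
    (h2 : ∀ x, 1 ≤ |x| → G x = 0) {ε : ℝ} (hε : 0 < ε) :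
    ∃ b : ℝ, 0 < b ∧ b ≤ 1 ∧ ∀ h : EuclideanSpace ℝ (Fin 2) → ℝ, ContDiff ℝ ∞ h →
      ∃ lam : ℝ, 0 < lam ∧
        willmoreEnergy (lift4 (fun x => f (κ' (squeeze G b x))) (fun x => lam * h x)) < ε := by
  classical
  set K : Set (EuclideanSpace ℝ (Fin 2)) := closedBall 0 1 with hK
  have hKc : IsCompact K := isCompact_closedBall 0 1
  -- the integrand at `lam = 0`
  set W : (EuclideanSpace ℝ (Fin 2) → ℝ) → ℝ → EuclideanSpace ℝ (Fin 2) → ℝ := fun h lam y =>
    ‖meanCurv (lift4 f (fun z => lam * h z)) y‖ ^ 2 *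
      Real.sqrt (gdet (lift4 f (fun z => lam * h z)) y) with hW
  have hWc : ∀ h : EuclideanSpace ℝ (Fin 2) → ℝ, ContDiff ℝ ∞ h →
      ContinuousOn (fun p : ℝ × EuclideanSpace ℝ (Fin 2) => W h p.1 p.2)
        (Icc (-1 : ℝ) 1 ×ˢ K) := by
    intro h hh
    have h1 := wsmall_cont (wsmall_smooth hf (contDiff_const (c := (0 : ℝ))))
      (wsmall_smooth (contDiff_const (c := (0 : EuclideanSpace ℝ (Fin 3)))) hh)
    simp only [wsmall_split] at h1
    refine h1.mono ?_
    rintro ⟨lam, y⟩ ⟨-, hy⟩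
    exact gdet_pos (wsmall_immersion hf (contDiff_const.mul hh) (him y hy))
  have hW0 : ∀ h y, W h 0 y = W (fun _ => 0) 0 y := by
    intro h y
    simp only [hW, zero_mul]
  obtain ⟨C0, hC0⟩ : ∃ C0 : ℝ, ∀ y ∈ K, W (fun _ => 0) 0 y ≤ C0 := by
    have h1 : ContinuousOn (fun y => W (fun _ => 0) 0 y) K := by
      have h2 := hWc (fun _ => 0) contDiff_const
      exact h2.comp (f := fun y : EuclideanSpace ℝ (Fin 2) => ((0 : ℝ), y))
        (continuous_const.prodMk continuous_id).continuousOn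
        (fun y hy => ⟨⟨by norm_num, by norm_num⟩, hy⟩)
    obtain ⟨C0, hC0⟩ := hKc.bddAbove_image h1
    exact ⟨C0, fun y hy => hC0 (mem_image_of_mem _ hy)⟩
  obtain ⟨C1, hC1p, hC1⟩ : ∃ C1 : ℝ, 0 ≤ C1 ∧ ∀ y ∈ K, |(fderiv ℝ κ' y).det| ≤ C1 := by
    have h1 : Continuous (fun y => |(fderiv ℝ κ' y).det|) := by
      have h2 : Continuous (fun A : EuclideanSpace ℝ (Fin 2) →L[ℝ] EuclideanSpace ℝ (Fin 2) =>
          A.det) := ContinuousLinearMap.continuous_det
      exact (h2.comp (hκ'.continuous_fderiv (by simp))).abs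
    obtain ⟨C1, hC1⟩ := hKc.bddAbove_image h1.continuousOn
    refine ⟨max C1 0, le_max_right _ _, fun y hy => (hC1 (mem_image_of_mem _ hy)).trans
      (le_max_left _ _)⟩
  have hC0' : ∀ y ∈ K, W (fun _ => 0) 0 y ≤ max C0 0 := fun y hy =>
    (hC0 y hy).trans (le_max_left _ _)
  set V : ℝ := (volume : Measure (EuclideanSpace ℝ (Fin 2))).real (ball 0 1) with hV
  have hV0 : 0 ≤ V := measureReal_nonneg
  have hC00 : 0 ≤ max C0 0 := le_max_right _ _
  set D : ℝ := (max C0 0 + 1) * C1 * V + 1 with hD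
  have hD0 : 0 < D := by positivity
  refine ⟨min 1 (ε / (2 * D)), lt_min one_pos (by positivity), min_le_left _ _, ?_⟩
  set b : ℝ := min 1 (ε / (2 * D)) with hb
  have hb0 : 0 < b := lt_min one_pos (by positivity)
  have hb1 : b ≤ 1 := min_le_left _ _
  have hbε : b * D < ε := by
    have h1 : b ≤ ε / (2 * D) := min_le_right _ _
    have h2 : b * D ≤ ε / (2 * D) * D := mul_le_mul_of_nonneg_right h1 hD0.le
    have h3 : ε / (2 * D) * D = ε / 2 := by field_simp
    rw [h3] at h2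
    linarith
  intro h hh
  set ψ : EuclideanSpace ℝ (Fin 2) → EuclideanSpace ℝ (Fin 2) := fun x => κ' (squeeze G b x)
    with hψ
  set χ : EuclideanSpace ℝ (Fin 2) → EuclideanSpace ℝ (Fin 2) := fun x => unsqueeze G b (κ x)
    with hχ
  have hsq : ContDiff ℝ ∞ (squeeze G b) :=
    (contDiff_squeeze hG).comp (contDiff_const.prodMk contDiff_id)
  have hψs : ContDiff ℝ ∞ ψ := hκ'.comp hsq
  have hχs : ContDiff ℝ ∞ χ := (contDiff_unsqueeze hG b).comp hκ
  have hχψ : ∀ x, χ (ψ x) = x := by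
    intro x
    simp only [hψ, hχ]
    rw [hinv, unsqueeze_squeeze G hb0.ne']
  set h' : EuclideanSpace ℝ (Fin 2) → ℝ := fun z => h (χ z) with hh'
  have hh's : ContDiff ℝ ∞ h' := hh.comp hχs
  -- uniform continuity in the parameter
  obtain ⟨δ, hδ, hδW⟩ : ∃ δ : ℝ, 0 < δ ∧ ∀ lam : ℝ, 0 < lam → lam < δ → lam ≤ 1 → ∀ y ∈ K,
      W h' lam y ≤ max C0 0 + 1 := by
    have huc := (isCompact_Icc.prod hKc).uniformContinuousOn_of_continuous (hWc h' hh's)
    rw [Metric.uniformContinuousOn_iff] at huc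
    obtain ⟨δ, hδ, H⟩ := huc 1 one_pos
    refine ⟨δ, hδ, fun lam h0 h1 h2 y hy => ?_⟩
    have h3 := H (lam, y) ⟨⟨by linarith, h2⟩, hy⟩ (0, y) ⟨⟨by norm_num, by norm_num⟩, hy⟩ (by
      rw [Prod.dist_eq]
      simp only [dist_self, Real.dist_eq, sub_zero]
      rw [abs_of_pos h0, max_eq_left h0.le]
      exact h1)
    have h4 := hC0' y hy
    rw [← hW0 h' y] at h4
    rw [Real.dist_eq] at h3
    have h5 := (abs_lt.1 h3).2
    simp only at h5
    linarith
  set lam : ℝ := min (δ / 2) 1 with hlam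
  have hlam0 : 0 < lam := lt_min (by positivity) one_pos
  have hlamδ : lam < δ := (min_le_left _ _).trans_lt (by linarith)
  have hlam1 : lam ≤ 1 := min_le_right _ _
  refine ⟨lam, hlam0, ?_⟩
  set F : EuclideanSpace ℝ (Fin 2) → EuclideanSpace ℝ (Fin 4) := lift4 f (fun z => lam * h' z)
    with hF
  have hFs : ContDiff ℝ ∞ F := wsmall_smooth hf (contDiff_const.mul hh's)
  have hcomp : lift4 (fun x => f (κ' (squeeze G b x))) (fun x => lam * h x)
      = fun x => F (ψ x) := by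
    funext x
    ext i
    have h1 : h' (ψ x) = h x := by simp only [hh', hχψ]
    fin_cases i
    · simp [lift4, hF, hψ]
    · simp [lift4, hF, hψ]
    · simp [lift4, hF, hψ]
    · simp [lift4, hF, h1]
  rw [hcomp]
  have hψK : ∀ x ∈ K, ψ x ∈ K := fun x hx => hκb (squeeze_mem h1 h2 hb0 hb1 hx)
  have hdet : ∀ x, (fderiv ℝ ψ x).det = (fderiv ℝ κ' (squeeze G b x)).det * b := by
    intro x
    have e1 : fderiv ℝ ψ x = (fderiv ℝ κ' (squeeze G b x)).comp (fderiv ℝ (squeeze G b) x) :=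
      ((hκ'.differentiable (by simp)) _).hasFDerivAt.comp x
        ((hsq.differentiable (by simp)) x).hasFDerivAt |>.fderiv
    rw [e1, wsmall_det_comp, det_fderiv_squeeze hG]
  have hdet0 : ∀ y, (fderiv ℝ κ' y).det ≠ 0 := by
    intro y hy
    have e1 : (fderiv ℝ κ (κ' y)).comp (fderiv ℝ κ' y) = ContinuousLinearMap.id ℝ _ := by
      have e2 : HasFDerivAt (fun z => κ (κ' z)) ((fderiv ℝ κ (κ' y)).comp (fderiv ℝ κ' y)) y :=
        ((hκ.differentiable (by simp)) _).hasFDerivAt.comp y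
          ((hκ'.differentiable (by simp)) y).hasFDerivAt
      have e3 : (fun z => κ (κ' z)) = id := funext hinv
      rw [e3] at e2
      exact e2.unique (hasFDerivAt_id y)
    have e4 := congrArg ContinuousLinearMap.det e1
    have e5 : (ContinuousLinearMap.id ℝ (EuclideanSpace ℝ (Fin 2))).det = 1 := LinearMap.det_id
    rw [wsmall_det_comp, hy, mul_zero, e5] at e4
    exact zero_ne_one e4
  unfold willmoreEnergy
  have hbound : ∀ x ∈ ball (0 : EuclideanSpace ℝ (Fin 2)) 1,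
      ‖‖meanCurvature (fun x => F (ψ x)) x‖ ^ 2 * Real.sqrt (gdet (fun x => F (ψ x)) x)‖
        ≤ (max C0 0 + 1) * (C1 * b) := by
    intro x hx
    have hxK : x ∈ K := ball_subset_closedBall hx
    have hyK := hψK x hxK
    have hsK : squeeze G b x ∈ K := squeeze_mem h1 h2 hb0 hb1 hxK
    have hi : Function.Injective (fderiv ℝ F (ψ x)) :=
      wsmall_immersion hf (contDiff_const.mul hh's) (him _ hyK)
    have hd : (fderiv ℝ ψ x).det ≠ 0 := by
      rw [hdet]
      exact mul_ne_zero (hdet0 _) hb0.ne'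
    rw [meanCurvature_comp_reparam hFs hψs hd hi, gdet_comp_reparam hFs hψs,
      meanCurvature_eq hFs, Real.sqrt_mul (gdet_pos hi).le, Real.sqrt_sq_eq_abs, ← mul_assoc,
      Real.norm_eq_abs, abs_of_nonneg (by positivity)]
    have hw : ‖meanCurv F (ψ x)‖ ^ 2 * Real.sqrt (gdet F (ψ x)) ≤ max C0 0 + 1 :=
      hδW lam hlam0 hlamδ hlam1 _ hyK
    have hdd : |(fderiv ℝ ψ x).det| ≤ C1 * b := by
      rw [hdet, abs_mul, abs_of_pos hb0]
      exact mul_le_mul_of_nonneg_right (hC1 _ hsK) hb0.le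
    exact mul_le_mul hw hdd (abs_nonneg _) (by positivity)
  have hfin : (volume : Measure (EuclideanSpace ℝ (Fin 2))) (ball 0 1) < ⊤ :=
    measure_ball_lt_top
  have hI := norm_setIntegral_le_of_norm_le_const hfin hbound
  refine lt_of_le_of_lt (le_trans (le_abs_self _) hI) ?_
  calc (max C0 0 + 1) * (C1 * b) * V = b * ((max C0 0 + 1) * C1 * V) := by ring
    _ ≤ b * D := mul_le_mul_of_nonneg_left (by rw [hD]; linarith) hb0.le
    _ < ε := hbε

end Pool.Agent.Lib_MP_752436_rb
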