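import Pool.Agent.Lib_MP_752436_rb.Shrink
import Pool.Agent.Lib_MP_752436_rb.Graph
import Pool.Agent.Lib_MP_752436_rb.WSmall

/-!
A ribbon knot is ambient isotopic to the boundary of slice discs of arbitrarily small Willmore
energy.
-/

open MeasureTheory Metric Set
open scoped ContDiff Topology

namespace Pool.Agent.Lib_MP_752436_rb

open Pool.Agent.Lib_MP_752436_gt

/-- What is used of a ribbon immersion: its double points have one preimage on one of finitely many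
disjoint smooth arcs `α i` in the open disc, and the other one in a closed set `B` disjoint from
these arcs. -/
structure DoubleData (f : EuclideanSpace ℝ (Fin 2) → EuclideanSpace ℝ (Fin 3)) {n : ℕ}
    (α : Fin n → ℝ → EuclideanSpace ℝ (Fin 2)) (B : Set (EuclideanSpace ℝ (Fin 2))) : Prop where
  smooth : ContDiff ℝ ∞ f
  immersion : ∀ x ∈ closedBall (0 : EuclideanSpace ℝ (Fin 2)) 1,
    Function.Injective (fderiv ℝ f x)
  arc : ∀ i, IsArc (α i)
  inside : ∀ i, ∀ s ∈ Icc (0 : ℝ) 1, α i s ∈ ball (0 : EuclideanSpace ℝ (Fin 2)) 1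
  disj : ∀ i j, i ≠ j → Disjoint (α i '' Icc 0 1) (α j '' Icc 0 1)
  closed : IsClosed B
  disjB : ∀ i, ∀ s ∈ Icc (0 : ℝ) 1, α i s ∉ B
  double : ∀ x ∈ closedBall (0 : EuclideanSpace ℝ (Fin 2)) 1,
    ∀ y ∈ closedBall (0 : EuclideanSpace ℝ (Fin 2)) 1, x ≠ y → f x = f y →
      ((∃ i, ∃ s ∈ Icc (0 : ℝ) 1, x = α i s) ∧ y ∈ B) ∨
        (x ∈ B ∧ ∃ i, ∃ s ∈ Icc (0 : ℝ) 1, y = α i s)

theorem RibbonImmersion.doubleData {f : EuclideanSpace ℝ (Fin 2) → EuclideanSpace ℝ (Fin 3)}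
    (hf : RibbonImmersion f) : ∃ (n : ℕ) (α : Fin n → ℝ → EuclideanSpace ℝ (Fin 2))
      (B : Set (EuclideanSpace ℝ (Fin 2))), DoubleData f α B := by
  obtain ⟨n, α, β, hp, hd, hc⟩ := hf.singularities
  refine ⟨n, α, ⋃ i, β i '' Icc 0 1, hf.smooth, hf.immersion, fun i => (hp i).arcα,
    fun i => (hp i).inside, ?_, ?_, ?_, ?_⟩
  · intro i j hij
    rw [Set.disjoint_left]
    rintro x ⟨s, hs, rfl⟩ ⟨t, ht, hst⟩
    refine Set.disjoint_left.1 (hd i j hij)
      (show f (α i s) ∈ f ∘ α i '' Icc 0 1 from ⟨s, hs, rfl⟩) ⟨t, ht, ?_⟩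
    simp only [Function.comp_apply]
    rw [hst]
  · refine isClosed_iUnion_of_finite fun i => ?_
    exact (isCompact_Icc.image (hp i).arcβ.smooth.continuous).isClosed
  · intro i s hs hmem
    obtain ⟨j, t, ht, hst⟩ := mem_iUnion.1 hmem
    by_cases hij : i = j
    · subst hij
      exact Set.disjoint_left.1 (hp i).disjoint ⟨s, hs, rfl⟩ ⟨t, ht, hst⟩
    · refine Set.disjoint_left.1 (hd i j hij)
        (show f (α i s) ∈ f ∘ α i '' Icc 0 1 from ⟨s, hs, rfl⟩) ⟨t, ht, ?_⟩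
      simp only [Function.comp_apply]
      rw [(hp j).same t ht, hst]
  · intro x hx y hy hxy hfxy
    obtain ⟨i, s, hs, h⟩ := hc x hx y hy hxy hfxy
    rcases h with ⟨h1, h2⟩ | ⟨h1, h2⟩
    · exact Or.inl ⟨⟨i, s, hs, h1⟩, mem_iUnion.2 ⟨i, s, hs, h2.symm⟩⟩
    · exact Or.inr ⟨mem_iUnion.2 ⟨i, s, hs, h1.symm⟩, ⟨i, s, hs, h2⟩⟩

/-- Change of axes in the disc. -/
theorem DoubleData.rotate {f : EuclideanSpace ℝ (Fin 2) → EuclideanSpace ℝ (Fin 3)} {n : ℕ}
    {α : Fin n → ℝ → EuclideanSpace ℝ (Fin 2)} {B : Set (EuclideanSpace ℝ (Fin 2))}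
    (h : DoubleData f α B) (R : EuclideanSpace ℝ (Fin 2) ≃ₗᵢ[ℝ] EuclideanSpace ℝ (Fin 2)) :
    DoubleData (fun x => f (R.symm x)) (fun i s => R (α i s)) (R '' B) := by
  have hball : ∀ x r, R x ∈ ball (0 : EuclideanSpace ℝ (Fin 2)) r ↔
      x ∈ ball (0 : EuclideanSpace ℝ (Fin 2)) r := by
    intro x r
    rw [mem_ball_zero_iff, mem_ball_zero_iff, R.norm_map]
  have hball' : ∀ x r, R.symm x ∈ closedBall (0 : EuclideanSpace ℝ (Fin 2)) r ↔
      x ∈ closedBall (0 : EuclideanSpace ℝ (Fin 2)) r := by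
    intro x r
    rw [mem_closedBall_zero_iff, mem_closedBall_zero_iff, R.symm.norm_map]
  refine ⟨?_, ?_, ?_, ?_, ?_, ?_, ?_, ?_⟩
  · exact h.smooth.comp R.symm.contDiff
  · intro x hx
    have h1 : fderiv ℝ (fun x => f (R.symm x)) x =
        (fderiv ℝ f (R.symm x)).comp (R.symm.toContinuousLinearEquiv :
          EuclideanSpace ℝ (Fin 2) →L[ℝ] EuclideanSpace ℝ (Fin 2)) := by
      have h2 := ((h.smooth.differentiable (by simp)) (R.symm x)).hasFDerivAt
      have h3 := R.symm.toContinuousLinearEquiv.hasFDerivAt (x := x)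
      exact (h2.comp x h3).fderiv
    rw [h1]
    exact (h.immersion _ ((hball' x 1).2 hx)).comp R.symm.injective
  · intro i
    refine ⟨R.contDiff.comp (h.arc i).smooth, ?_, ?_⟩
    · intro s hs h0
      apply (h.arc i).regular s hs
      have h1 : deriv (fun s => R (α i s)) s = R (deriv (α i) s) := by
        have h2 := (((h.arc i).smooth.differentiable (by simp)) s).hasDerivAt
        exact (R.toContinuousLinearEquiv.hasFDerivAt.comp_hasDerivAt s h2).deriv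
      rw [h1] at h0
      exact (map_eq_zero_iff R R.injective).1 h0
    · exact R.injective.injOn.comp (h.arc i).inj (mapsTo_univ _ _)
  · intro i s hs
    exact (hball _ _).2 (h.inside i s hs)
  · intro i j hij
    rw [Set.disjoint_left]
    rintro x ⟨s, hs, rfl⟩ ⟨t, ht, hst⟩
    exact Set.disjoint_left.1 (h.disj i j hij) ⟨s, hs, rfl⟩ ⟨t, ht, R.injective hst⟩
  · exact R.toHomeomorph.isClosedMap _ h.closed
  · rintro i s hs ⟨b, hb, hbs⟩
    exact h.disjB i s hs (R.injective hbs ▸ hb)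
  · intro x hx y hy hxy hfxy
    have h1 := h.double (R.symm x) ((hball' x 1).2 hx) (R.symm y) ((hball' y 1).2 hy)
      (fun h2 => hxy (R.symm.injective h2)) hfxy
    have key : ∀ z, (∃ i, ∃ s ∈ Icc (0 : ℝ) 1, R.symm z = α i s) →
        ∃ i, ∃ s ∈ Icc (0 : ℝ) 1, z = R (α i s) := by
      rintro z ⟨i, s, hs, hz⟩
      exact ⟨i, s, hs, by rw [← hz, R.apply_symm_apply]⟩
    have key2 : ∀ z, R.symm z ∈ B → z ∈ R '' B := fun z hz =>
      ⟨R.symm z, hz, R.apply_symm_apply z⟩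
    rcases h1 with ⟨h1, h2⟩ | ⟨h1, h2⟩
    · exact Or.inl ⟨key x h1, key2 y h2⟩
    · exact Or.inr ⟨key2 x h1, key y h2⟩

/-- The main step, when short initial pieces of the arcs lie on the graph of `G`: all thin discs
`κ' ∘ squeeze G b` have slice discs above them, with boundary isotopic to the given knot. -/
theorem exists_disc_of_graph {f : EuclideanSpace ℝ (Fin 2) → EuclideanSpace ℝ (Fin 3)} {n : ℕ}
    {α : Fin n → ℝ → EuclideanSpace ℝ (Fin 2)} {B : Set (EuclideanSpace ℝ (Fin 2))}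
    (h : DoubleData f α B) {c : ℝ} (hc : 0 < c) (hc1 : c ≤ 1) {G : ℝ → ℝ} (hG : ContDiff ℝ ∞ G)
    (h1 : ∀ x, |x| < 1 → x ^ 2 + G x ^ 2 < 1) (h2 : ∀ x, 1 ≤ |x| → G x = 0)
    (h3 : ∀ i, ∀ s ∈ Icc (0 : ℝ) c, α i s ∈ ball (0 : EuclideanSpace ℝ (Fin 2)) 1 ∧
        α i s 1 = G (α i s 0)) :
    ∃ κ κ' : EuclideanSpace ℝ (Fin 2) → EuclideanSpace ℝ (Fin 2), ContDiff ℝ ∞ κ ∧
      ContDiff ℝ ∞ κ' ∧ (∀ x, κ (κ' x) = x) ∧ (∀ x, κ' (κ x) = x) ∧
      MapsTo κ' (closedBall 0 1) (closedBall 0 1) ∧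
      ∀ b, 0 < b → b ≤ 1 → ∃ hh : EuclideanSpace ℝ (Fin 2) → ℝ, ContDiff ℝ ∞ hh ∧
        ∀ lam : ℝ, 0 < lam →
          IsSliceDisc (lift4 (fun x => f (κ' (squeeze G b x))) (fun x => lam * hh x)) ∧
          AmbientIsotopic (f '' sphere 0 1)
            (boundaryKnot (lift4 (fun x => f (κ' (squeeze G b x))) (fun x => lam * hh x))) := by
  obtain ⟨Ψ, hΨ, hΨα⟩ := exists_shrink h.arc h.inside h.disj hc hc1
  obtain ⟨κ', hκ', hi1, hi2⟩ := hΨ.inverse 1 (by simp)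
  have hκ : ContDiff ℝ ∞ (Ψ 1) := hΨ.smooth.comp (contDiff_const.prodMk contDiff_id)
  have hout : ∀ x ∉ ball (0 : EuclideanSpace ℝ (Fin 2)) 1, κ' x = x := by
    intro x hx
    have h4 := hi1 x
    rwa [hΨ.outside 1 x hx] at h4
  have hκball : ∀ x ∈ ball (0 : EuclideanSpace ℝ (Fin 2)) 1,
      κ' x ∈ ball (0 : EuclideanSpace ℝ (Fin 2)) 1 := by
    intro x hx
    by_contra hcon
    have h4 := hΨ.outside 1 _ hcon
    rw [hi2] at h4
    rw [← h4] at hcon
    exact hcon hx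
  have hκb : MapsTo κ' (closedBall 0 1) (closedBall 0 1) := by
    intro x hx
    by_cases hxb : x ∈ ball (0 : EuclideanSpace ℝ (Fin 2)) 1
    · exact ball_subset_closedBall (hκball x hxb)
    · rw [hout x hxb]
      exact hx
  -- the arcs after the shrinking
  have hgraph : ∀ i, ∀ s ∈ Icc (0 : ℝ) 1, Ψ 1 (α i s) ∈ ball (0 : EuclideanSpace ℝ (Fin 2)) 1 ∧
      ∀ b', squeeze G b' (Ψ 1 (α i s)) = Ψ 1 (α i s) := by
    intro i s hs
    rw [hΨα i s hs]
    have h4 := h3 i (c * s) ⟨mul_nonneg hc.le hs.1, by nlinarith [hs.2]⟩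
    exact ⟨h4.1, fun b' => squeeze_graph G b' h4.2⟩
  have hsqinj : ∀ b', b' ≠ 0 → Function.Injective (squeeze G b') := by
    intro b' hb' x y hxy
    have h4 := congrArg (unsqueeze G b') hxy
    rwa [unsqueeze_squeeze G hb', unsqueeze_squeeze G hb'] at h4
  have hκinj : Function.Injective κ' := by
    intro x y hxy
    have h4 := congrArg (Ψ 1) hxy
    rwa [hi2, hi2] at h4
  -- a point which is mapped to an arc
  have hkey : ∀ b', b' ≠ 0 → ∀ x i, ∀ s ∈ Icc (0 : ℝ) 1, κ' (squeeze G b' x) = α i s →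
      x = Ψ 1 (α i s) := by
    intro b' hb' x i s hs hx
    have h4 := congrArg (Ψ 1) hx
    rw [hi2] at h4
    apply hsqinj b' hb'
    rw [(hgraph i s hs).2, h4]
  -- derivative of the inner map
  have hinner : ∀ b', b' ≠ 0 → ∀ x, Function.Injective
      (fderiv ℝ (fun x => κ' (squeeze G b' x)) x) := by
    intro b' hb' x
    have hsq : ContDiff ℝ ∞ (squeeze G b') :=
      (contDiff_squeeze hG).comp (contDiff_const.prodMk contDiff_id)
    have hL : ContDiff ℝ ∞ (fun x => κ' (squeeze G b' x)) := hκ'.comp hsq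
    have hR : ContDiff ℝ ∞ (fun y => unsqueeze G b' (Ψ 1 y)) :=
      (contDiff_unsqueeze hG b').comp hκ
    have hid : (fun y => unsqueeze G b' (Ψ 1 y)) ∘ (fun x => κ' (squeeze G b' x)) = id := by
      funext y
      simp only [Function.comp_apply, id]
      rw [hi2, unsqueeze_squeeze G hb']
    have h4 := ((hR.differentiable (by simp)) (κ' (squeeze G b' x))).hasFDerivAt
    have h5 := ((hL.differentiable (by simp)) x).hasFDerivAt
    have h6 := h4.comp x h5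
    rw [hid] at h6
    have h7 := h6.unique (hasFDerivAt_id x)
    intro u w huw
    have h8 := congrArg (fderiv ℝ (fun y => unsqueeze G b' (Ψ 1 y)) (κ' (squeeze G b' x))) huw
    have h9 : ∀ z, fderiv ℝ (fun y => unsqueeze G b' (Ψ 1 y)) (κ' (squeeze G b' x))
        (fderiv ℝ (fun x => κ' (squeeze G b' x)) x z) = z := fun z => by
      have := congrArg (fun T : EuclideanSpace ℝ (Fin 2) →L[ℝ] EuclideanSpace ℝ (Fin 2) => T z) h7
      simpa using this
    rwa [h9, h9] at h8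
  have himm : ∀ b', 0 < b' → b' ≤ 1 → ∀ x ∈ closedBall (0 : EuclideanSpace ℝ (Fin 2)) 1,
      Function.Injective (fderiv ℝ (fun x => f (κ' (squeeze G b' x))) x) := by
    intro b' hb' hb'1 x hx
    have hsq : ContDiff ℝ ∞ (squeeze G b') :=
      (contDiff_squeeze hG).comp (contDiff_const.prodMk contDiff_id)
    have hL : ContDiff ℝ ∞ (fun x => κ' (squeeze G b' x)) := hκ'.comp hsq
    have h4 := ((h.smooth.differentiable (by simp)) (κ' (squeeze G b' x))).hasFDerivAt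
    have h5 := ((hL.differentiable (by simp)) x).hasFDerivAt
    have h6 : fderiv ℝ (fun x => f (κ' (squeeze G b' x))) x = _ := (h4.comp x h5).fderiv
    rw [h6]
    exact (h.immersion _ (hκb (squeeze_mem h1 h2 hb' hb'1 hx))).comp (hinner b' hb'.ne' x)
  refine ⟨Ψ 1, κ', hκ, hκ', hi2, hi1, hκb, fun b hb0 hb1 => ?_⟩
  set g : EuclideanSpace ℝ (Fin 2) → EuclideanSpace ℝ (Fin 3) :=
    fun x => f (κ' (squeeze G b x)) with hg
  have hgs : ContDiff ℝ ∞ g := h.smooth.comp (hκ'.comp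
    ((contDiff_squeeze hG).comp (contDiff_const.prodMk contDiff_id)))
  -- the height
  have hpush : ∃ hh : EuclideanSpace ℝ (Fin 2) → ℝ, ContDiff ℝ ∞ hh ∧
      ∀ lam : ℝ, 0 < lam → IsSliceDisc (lift4 g (fun x => lam * hh x)) := by
    refine exists_push (A := ⋃ i, (fun s => Ψ 1 (α i s)) '' Icc (0 : ℝ) 1)
      (B := (fun x => κ' (squeeze G b x)) ⁻¹' B) hgs (himm b hb0 hb1) ?_ ?_ ?_ ?_ ?_
    · refine isCompact_iUnion fun i => isCompact_Icc.image ?_
      exact hκ.continuous.comp (h.arc i).smooth.continuous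
    · intro x hx
      obtain ⟨i, s, hs, rfl⟩ := mem_iUnion.1 hx
      exact (hgraph i s hs).1
    · exact h.closed.preimage (hκ'.comp ((contDiff_squeeze hG).comp
        (contDiff_const.prodMk contDiff_id))).continuous
    · rw [Set.disjoint_left]
      intro x hx hxB
      obtain ⟨i, s, hs, rfl⟩ := mem_iUnion.1 hx
      simp only [mem_preimage, (hgraph i s hs).2, hi1] at hxB
      exact h.disjB i s hs hxB
    · intro x hx y hy hxy hgxy
      have h4 := h.double _ (hκb (squeeze_mem h1 h2 hb0 hb1 hx)) _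
        (hκb (squeeze_mem h1 h2 hb0 hb1 hy))
        (fun h5 => hxy (hsqinj b hb0.ne' (hκinj h5))) hgxy
      rcases h4 with ⟨⟨i, s, hs, hxs⟩, hyB⟩ | ⟨hxB, ⟨i, s, hs, hys⟩⟩
      · exact Or.inl ⟨mem_iUnion.2 ⟨i, s, hs, (hkey b hb0.ne' x i s hs hxs).symm⟩, hyB⟩
      · exact Or.inr ⟨hxB, mem_iUnion.2 ⟨i, s, hs, (hkey b hb0.ne' y i s hs hys).symm⟩⟩
  obtain ⟨hh, hhs, hslice⟩ := hpush
  refine ⟨hh, hhs, fun lam hlam => ⟨hslice lam hlam, ?_⟩⟩
  -- the isotopy of the boundary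
  have hbs : ∀ s ∈ Icc (0 : ℝ) 1, 0 < 1 - s * (1 - b) ∧ 1 - s * (1 - b) ≤ 1 := by
    intro s hs
    have h4 : s * (1 - b) ≤ 1 * (1 - b) := mul_le_mul_of_nonneg_right hs.2 (by linarith)
    have h5 : 0 ≤ s * (1 - b) := mul_nonneg hs.1 (by linarith)
    exact ⟨by linarith, by linarith⟩
  have hHs : ContDiff ℝ ∞ (fun p : ℝ × EuclideanSpace ℝ (Fin 2) =>
      (fun (s : ℝ) (x : EuclideanSpace ℝ (Fin 2)) =>
        f (κ' (squeeze G (1 - s * (1 - b)) x))) p.1 p.2) := by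
    have h4 : ContDiff ℝ ∞ (fun p : ℝ × EuclideanSpace ℝ (Fin 2) => (1 - p.1 * (1 - b), p.2)) :=
      (contDiff_const.sub (contDiff_fst.mul contDiff_const)).prodMk contDiff_snd
    exact h.smooth.comp (hκ'.comp ((contDiff_squeeze hG).comp h4))
  have hHinj : ∀ s ∈ Icc (0 : ℝ) 1, InjOn ((fun (s : ℝ) (x : EuclideanSpace ℝ (Fin 2)) =>
        f (κ' (squeeze G (1 - s * (1 - b)) x))) s)
      (sphere (0 : EuclideanSpace ℝ (Fin 2)) 1) := by
    intro s hs x hx y hy hxy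
    by_contra hne
    obtain ⟨hb2, hb3⟩ := hbs s hs
    have hx' := sphere_subset_closedBall hx
    have hy' := sphere_subset_closedBall hy
    have h4 := h.double _ (hκb (squeeze_mem h1 h2 hb2 hb3 hx')) _
      (hκb (squeeze_mem h1 h2 hb2 hb3 hy'))
      (fun h5 => hne (hsqinj _ hb2.ne' (hκinj h5))) hxy
    have hsph : ∀ z ∈ sphere (0 : EuclideanSpace ℝ (Fin 2)) 1,
        z ∉ ball (0 : EuclideanSpace ℝ (Fin 2)) 1 := by
      intro z hz hzb
      rw [mem_ball_zero_iff] at hzb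
      rw [mem_sphere_zero_iff_norm] at hz
      linarith
    rcases h4 with ⟨⟨i, t, ht, hxt⟩, -⟩ | ⟨-, ⟨i, t, ht, hyt⟩⟩
    · have h5 := hkey _ hb2.ne' x i t ht hxt
      exact hsph x hx (h5 ▸ (hgraph i t ht).1)
    · have h5 := hkey _ hb2.ne' y i t ht hyt
      exact hsph y hy (h5 ▸ (hgraph i t ht).1)
  have hHimm : ∀ s ∈ Icc (0 : ℝ) 1, ∀ x ∈ sphere (0 : EuclideanSpace ℝ (Fin 2)) 1,
      Function.Injective (fderiv ℝ ((fun (s : ℝ) (x : EuclideanSpace ℝ (Fin 2)) =>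
        f (κ' (squeeze G (1 - s * (1 - b)) x))) s) x) := by
    intro s hs x hx
    obtain ⟨hb2, hb3⟩ := hbs s hs
    exact himm _ hb2 hb3 x (sphere_subset_closedBall hx)
  obtain ⟨Θ, hΘ, hΘ1⟩ := isotopy_extension_of_immersion hHs (isCompact_sphere _ _) hHinj hHimm
    isOpen_univ (fun _ _ _ _ => mem_univ _)
  refine ⟨Θ, hΘ, ?_⟩
  unfold boundaryKnot
  rw [shadow_lift4]
  have hset : Θ 1 '' (f '' sphere 0 1) = Θ 1 '' ((fun x => f (κ' (squeeze G 1 x))) ''
      sphere (0 : EuclideanSpace ℝ (Fin 2)) 1) := by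
    congr 1
    refine image_congr fun x hx => ?_
    rw [squeeze_one, hout x]
    intro hxb
    rw [mem_ball_zero_iff] at hxb
    rw [mem_sphere_zero_iff_norm] at hx
    linarith
  rw [hset, image_image]
  refine image_congr fun x hx => ?_
  have h4 := hΘ1 x hx
  simp only [zero_mul, sub_zero, one_mul, sub_sub_cancel] at h4
  exact h4

/-- Thin discs have small Willmore energy. -/
theorem exists_small_of_graph {f : EuclideanSpace ℝ (Fin 2) → EuclideanSpace ℝ (Fin 3)} {n : ℕ}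
    {α : Fin n → ℝ → EuclideanSpace ℝ (Fin 2)} {B : Set (EuclideanSpace ℝ (Fin 2))}
    (h : DoubleData f α B) {c : ℝ} (hc : 0 < c) (hc1 : c ≤ 1) {G : ℝ → ℝ} (hG : ContDiff ℝ ∞ G)
    (h1 : ∀ x, |x| < 1 → x ^ 2 + G x ^ 2 < 1) (h2 : ∀ x, 1 ≤ |x| → G x = 0)
    (h3 : ∀ i, ∀ s ∈ Icc (0 : ℝ) c, α i s ∈ ball (0 : EuclideanSpace ℝ (Fin 2)) 1 ∧
        α i s 1 = G (α i s 0)) {ε : ℝ} (hε : 0 < ε) :
    ∃ F, IsSliceDisc F ∧ willmoreEnergy F < ε ∧
      AmbientIsotopic (f '' sphere 0 1) (boundaryKnot F) := by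
  obtain ⟨κ, κ', hκ, hκ', hi2, hi1, hκb, hd⟩ := exists_disc_of_graph h hc hc1 hG h1 h2 h3
  obtain ⟨b, hb0, hb1, hsmall⟩ := exists_small h.smooth h.immersion hκ hκ' hi2 hi1 hκb hG h1 h2 hε
  obtain ⟨hh, hhs, hslice⟩ := hd b hb0 hb1
  obtain ⟨lam, hlam, hW⟩ := hsmall hh hhs
  exact ⟨_, (hslice lam hlam).1, hW, (hslice lam hlam).2⟩

theorem exists_small_of_ribbonKnot {K : Set (EuclideanSpace ℝ (Fin 3))} (hK : IsRibbonKnot K)
    {ε : ℝ} (hε : 0 < ε) :
    ∃ F, IsSliceDisc F ∧ willmoreEnergy F < ε ∧ AmbientIsotopic K (boundaryKnot F) := by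
  obtain ⟨f, hf, rfl⟩ := hK
  obtain ⟨n, α, B, h⟩ := hf.doubleData
  have h00 : (0 : ℝ) ∈ Icc (0 : ℝ) 1 := by simp
  obtain ⟨R, hR1, hR2⟩ := exists_axes (fun i => α i 0) (fun i => deriv (α i) 0)
    (fun i j hij h0 => Set.disjoint_left.1 (h.disj i j hij) ⟨0, h00, rfl⟩ ⟨0, h00, h0.symm⟩)
    (fun i => (h.arc i).regular 0 h00)
  have hr := h.rotate R
  obtain ⟨c, hc, hc1, G, hG, h1, h2, h3⟩ := exists_graph (fun i => (hr.arc i).smooth)
    (fun i => hr.inside i 0 h00) hR1 (fun i => by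
      have h1 : deriv (fun s => R (α i s)) 0 = R (deriv (α i) 0) := by
        have h2 := (((h.arc i).smooth.differentiable (by simp)) 0).hasDerivAt
        exact (R.toContinuousLinearEquiv.hasFDerivAt.comp_hasDerivAt 0 h2).deriv
      rw [h1]
      exact hR2 i)
  obtain ⟨F, hF1, hF2, hF3⟩ := exists_small_of_graph hr hc hc1 hG h1 h2 h3 hε
  refine ⟨F, hF1, hF2, ?_⟩
  have h4 : (fun x => f (R.symm x)) '' sphere 0 1 = f '' sphere 0 1 := by
    have h5 : (fun x => f (R.symm x)) '' sphere (0 : EuclideanSpace ℝ (Fin 2)) 1 =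
        f '' (R.symm '' sphere 0 1) := by rw [image_image]
    rw [h5, R.symm.image_sphere]
    simp
  rwa [h4] at hF3

end Pool.Agent.Lib_MP_752436_rb
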