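import Pool.Agent.Lib_MP_752436_gt.KLocal2
import Pool.Agent.Lib_MP_752436_rb.RibbonSmall

/-!
A ribbon knot is ambient isotopic to the boundary of a slice disc on which some linear coordinate of
`R^3` has no critical point.
-/

open MeasureTheory Metric Set
open scoped ContDiff Topology

namespace Pool.Agent.Lib_MP_752436_rb

open Pool.Agent.Lib_MP_752436_gt

/-- The normal vector of an immersion is not zero. -/
theorem nvec_ne_zero {f : EuclideanSpace ℝ (Fin 2) → EuclideanSpace ℝ (Fin 3)}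
    {x : EuclideanSpace ℝ (Fin 2)} (hinj : Function.Injective (fderiv ℝ f x)) :
    nvec f x ≠ 0 := by
  intro h0
  set a := pd f 0 x with ha
  set b := pd f 1 x with hb
  have hc : cross a b = 0 := h0
  have hc0 : a 1 * b 2 - a 2 * b 1 = 0 :=
    congrArg (fun w : EuclideanSpace ℝ (Fin 3) => w 0) hc
  have hc1 : a 2 * b 0 - a 0 * b 2 = 0 :=
    congrArg (fun w : EuclideanSpace ℝ (Fin 3) => w 1) hc
  have hc2 : a 0 * b 1 - a 1 * b 0 = 0 :=
    congrArg (fun w : EuclideanSpace ℝ (Fin 3) => w 2) hc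
  have key : ∀ α β : ℝ, (∀ i : Fin 3, α * a i + β * b i = 0) → α = 0 ∧ β = 0 := by
    intro α β hαβ
    set u : EuclideanSpace ℝ (Fin 2) := α • EuclideanSpace.single 0 1 + β • EuclideanSpace.single 1 1
      with hu
    have hfu : fderiv ℝ f x u = 0 := by
      rw [hu, map_add, map_smul, map_smul]
      ext i
      have := hαβ i
      simpa [ha, hb, pd] using this
    have hu0 : u = 0 := hinj (by rw [hfu, map_zero])
    have e0 := congrArg (fun w : EuclideanSpace ℝ (Fin 2) => w 0) hu0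
    have e1 := congrArg (fun w : EuclideanSpace ℝ (Fin 2) => w 1) hu0
    simp [hu] at e0 e1
    exact ⟨e0, e1⟩
  by_cases ha0 : a = 0
  · have := (key 1 0 (by intro i; rw [ha0]; simp)).1
    norm_num at this
  · obtain ⟨j, hj⟩ : ∃ j : Fin 3, a j ≠ 0 := by
      by_contra hcon
      push Not at hcon
      apply ha0
      ext j
      exact hcon j
    have := (key (b j) (-(a j)) (by
      intro i
      fin_cases j <;> fin_cases i <;> simp <;> linarith)).2
    exact hj (by linarith)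

/-- The graph of a smooth function is a null set. -/
theorem volume_graph {G : ℝ → ℝ} (hG : ContDiff ℝ ∞ G) :
    volume {x : EuclideanSpace ℝ (Fin 2) | x 1 = G (x 0)} = 0 := by
  set φ : EuclideanSpace ℝ (Fin 2) → EuclideanSpace ℝ (Fin 2) := fun x => !₂[x 0, x 1 + G (x 0)]
    with hφ
  have h0 : volume {x : EuclideanSpace ℝ (Fin 2) | x 1 = 0} = 0 := by
    set S : Submodule ℝ (EuclideanSpace ℝ (Fin 2)) :=
      LinearMap.ker ((EuclideanSpace.proj (1 : Fin 2) :
        EuclideanSpace ℝ (Fin 2) →L[ℝ] ℝ) : EuclideanSpace ℝ (Fin 2) →ₗ[ℝ] ℝ) with hS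
    have h1 : S ≠ ⊤ := by
      intro h2
      have h3 : (EuclideanSpace.single (1 : Fin 2) (1 : ℝ)) ∈ S := h2 ▸ Submodule.mem_top
      rw [hS, LinearMap.mem_ker] at h3
      simp at h3
    have h4 := MeasureTheory.Measure.addHaar_submodule
      (volume : Measure (EuclideanSpace ℝ (Fin 2))) S h1
    refine measure_mono_null ?_ h4
    intro x hx
    show x ∈ S
    rw [hS, LinearMap.mem_ker]
    exact hx
  have hφd : ContDiff ℝ ∞ φ := by
    rw [contDiff_euclidean]
    intro i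
    fin_cases i
    · show ContDiff ℝ ∞ fun x : EuclideanSpace ℝ (Fin 2) => x 0
      fun_prop
    · show ContDiff ℝ ∞ fun x : EuclideanSpace ℝ (Fin 2) => x 1 + G (x 0)
      have h5 : ContDiff ℝ ∞ fun x : EuclideanSpace ℝ (Fin 2) => x 0 := by fun_prop
      have h6 : ContDiff ℝ ∞ fun x : EuclideanSpace ℝ (Fin 2) => x 1 := by fun_prop
      exact h6.add (hG.comp h5)
  refine measure_mono_null ?_
    (MeasureTheory.addHaar_image_eq_zero_of_differentiableOn_of_addHaar_eq_zero volume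
      (f := φ) (s := {x | x 1 = 0})
      (fun x _ => ((hφd.differentiable (by simp)) x).differentiableWithinAt) h0)
  intro x hx
  have hx' : x 1 = G (x 0) := hx
  refine ⟨!₂[x 0, 0], by simp, ?_⟩
  rw [hφ]
  ext i
  fin_cases i
  · simp
  · simp [hx']

theorem projThree_lift4 (f : EuclideanSpace ℝ (Fin 2) → EuclideanSpace ℝ (Fin 3))
    (h : EuclideanSpace ℝ (Fin 2) → ℝ) : projThree (lift4 f h) = f := by
  funext x
  ext i
  fin_cases i <;> rfl

theorem inner_lift3_fderiv {F : EuclideanSpace ℝ (Fin 2) → EuclideanSpace ℝ (Fin 4)}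
    (hF : ContDiff ℝ ∞ F) (v : EuclideanSpace ℝ (Fin 3)) (x u : EuclideanSpace ℝ (Fin 2)) :
    (inner ℝ (lift3 v) (fderiv ℝ F x u) : ℝ) = inner ℝ v (fderiv ℝ (projThree F) x u) := by
  rw [inner_lift3, fderiv_projThree hF]

theorem contDiff_lift4 {f : EuclideanSpace ℝ (Fin 2) → EuclideanSpace ℝ (Fin 3)}
    (hf : ContDiff ℝ ∞ f) {h : EuclideanSpace ℝ (Fin 2) → ℝ} (hh : ContDiff ℝ ∞ h) :
    ContDiff ℝ ∞ (lift4 f h) := by
  have hfi : ∀ i, ContDiff ℝ ∞ fun x => f x i := fun i => contDiff_euclidean.1 hf i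
  rw [contDiff_euclidean]
  intro i
  fin_cases i
  · exact hfi 0
  · exact hfi 1
  · exact hfi 2
  · exact hh

/-- A direction which is not normal to thin neighbourhoods of the graph. -/
theorem exists_dir {f : EuclideanSpace ℝ (Fin 2) → EuclideanSpace ℝ (Fin 3)}
    (hf : ContDiff ℝ ∞ f) {G : ℝ → ℝ} (hG : ContDiff ℝ ∞ G)
    (him : ∀ x ∈ closedBall (0 : EuclideanSpace ℝ (Fin 2)) 1,
      Function.Injective (fderiv ℝ f (squeeze G 0 x))) :
    ∃ (v : EuclideanSpace ℝ (Fin 3)) (b : ℝ), 0 < b ∧ b ≤ 1 ∧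
      ∀ x ∈ closedBall (0 : EuclideanSpace ℝ (Fin 2)) 1,
        ∃ u, (inner ℝ v (fderiv ℝ f (squeeze G b x) u) : ℝ) ≠ 0 := by
  have hF := contDiff_lift4 hf (contDiff_const (c := (0 : ℝ)))
  have hnull := volume_normal_over_null hF (volume_graph hG)
  rw [projThree_lift4] at hnull
  obtain ⟨v, hv⟩ : ∃ v : EuclideanSpace ℝ (Fin 3), v ∉ {v : EuclideanSpace ℝ (Fin 3) |
      ∃ x ∈ {x : EuclideanSpace ℝ (Fin 2) | x 1 = G (x 0)}, nvec f x ≠ 0 ∧
      ∀ u, (inner ℝ (lift3 v) (fderiv ℝ (lift4 f (fun _ => (0 : ℝ))) x u) : ℝ) = 0} := by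
    by_contra hcon
    push Not at hcon
    have huniv := eq_univ_of_forall hcon
    rw [huniv] at hnull
    exact (Measure.measure_univ_ne_zero.2 (NeZero.ne _)) hnull
  have hv0 : ∀ x ∈ closedBall (0 : EuclideanSpace ℝ (Fin 2)) 1,
      ∃ u, (inner ℝ v (fderiv ℝ f (squeeze G 0 x) u) : ℝ) ≠ 0 := by
    intro x hx
    by_contra hcon
    push Not at hcon
    apply hv
    refine ⟨squeeze G 0 x, ?_, nvec_ne_zero (him x hx), ?_⟩
    · show squeeze G 0 x 1 = G (squeeze G 0 x 0)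
      simp [squeeze]
    · intro u
      rw [inner_lift3_fderiv hF, projThree_lift4]
      exact hcon u
  have hsq := contDiff_squeeze hG
  have hc : ∀ u, Continuous fun p : ℝ × EuclideanSpace ℝ (Fin 2) =>
      (inner ℝ v (fderiv ℝ f (squeeze G p.1 p.2) u) : ℝ) := by
    intro u
    have h1 : Continuous fun y => fderiv ℝ f y u :=
      (hf.continuous_fderiv (by simp)).clm_apply continuous_const
    exact continuous_const.inner (h1.comp hsq.continuous)
  have hev : ∀ᶠ b in 𝓝 (0 : ℝ), ∀ x ∈ closedBall (0 : EuclideanSpace ℝ (Fin 2)) 1,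
      ∃ u, (inner ℝ v (fderiv ℝ f (squeeze G b x) u) : ℝ) ≠ 0 := by
    refine (isCompact_closedBall (0 : EuclideanSpace ℝ (Fin 2)) 1).eventually_forall_of_forall_eventually
      (P := fun b x => ∃ u, (inner ℝ v (fderiv ℝ f (squeeze G b x) u) : ℝ) ≠ 0) ?_
    intro x hx
    obtain ⟨u, hu⟩ := hv0 x hx
    filter_upwards [(hc u).continuousAt.eventually_ne hu] with p hp
    exact ⟨u, hp⟩
  obtain ⟨b, hb, hb0, hb1⟩ := ((hev.filter_mono nhdsWithin_le_nhds).and
    (Ioo_mem_nhdsGT (zero_lt_one' ℝ))).exists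
  exact ⟨v, b, hb0, hb1.le, hb⟩

/-- The direction for the thin disc above a graph. -/
theorem exists_dir_of_graph {f : EuclideanSpace ℝ (Fin 2) → EuclideanSpace ℝ (Fin 3)} {n : ℕ}
    {α : Fin n → ℝ → EuclideanSpace ℝ (Fin 2)} {B : Set (EuclideanSpace ℝ (Fin 2))}
    (h : DoubleData f α B) {c : ℝ} (hc : 0 < c) (hc1 : c ≤ 1) {G : ℝ → ℝ} (hG : ContDiff ℝ ∞ G)
    (h1 : ∀ x, |x| < 1 → x ^ 2 + G x ^ 2 < 1) (h2 : ∀ x, 1 ≤ |x| → G x = 0)
    (h3 : ∀ i, ∀ s ∈ Icc (0 : ℝ) c, α i s ∈ ball (0 : EuclideanSpace ℝ (Fin 2)) 1 ∧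
        α i s 1 = G (α i s 0)) :
    ∃ (F : EuclideanSpace ℝ (Fin 2) → EuclideanSpace ℝ (Fin 4)) (v : EuclideanSpace ℝ (Fin 4)),
      IsSliceDisc F ∧ v 3 = 0 ∧
      (∀ x ∈ closedBall (0 : EuclideanSpace ℝ (Fin 2)) 1,
        ∃ u, (inner ℝ v (fderiv ℝ F x u) : ℝ) ≠ 0) ∧
      AmbientIsotopic (f '' sphere 0 1) (boundaryKnot F) := by
  obtain ⟨κ, κ', hκ, hκ', hi2, hi1, hκb, hd⟩ := exists_disc_of_graph h hc hc1 hG h1 h2 h3
  -- derivative of the inverse of a diffeomorphism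
  have hκ'inj : ∀ y, Function.Bijective (fderiv ℝ κ' y) := by
    intro y
    have hid : κ' ∘ κ = id := funext hi1
    have hid2 : κ ∘ κ' = id := funext hi2
    have d1 := ((hκ'.differentiable (by simp)) (κ (κ' y))).hasFDerivAt
    have d2 := ((hκ.differentiable (by simp)) (κ' y)).hasFDerivAt
    have d3 := d1.comp (κ' y) d2
    rw [hid, hi2] at d3
    have e1 := d3.unique (hasFDerivAt_id _)
    have d4 := ((hκ.differentiable (by simp)) (κ' y)).hasFDerivAt
    have d5 := ((hκ'.differentiable (by simp)) y).hasFDerivAt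
    have d6 := d4.comp y d5
    rw [hid2] at d6
    have e2 := d6.unique (hasFDerivAt_id _)
    constructor
    · intro a b hab
      have h4 := congrArg (fderiv ℝ κ (κ' y)) hab
      have h5 : ∀ z, fderiv ℝ κ (κ' y) (fderiv ℝ κ' y z) = z := fun z => by
        have := congrArg (fun T : EuclideanSpace ℝ (Fin 2) →L[ℝ] EuclideanSpace ℝ (Fin 2) => T z) e2
        simpa using this
      rwa [h5, h5] at h4
    · intro z
      refine ⟨fderiv ℝ κ (κ' y) z, ?_⟩
      have := congrArg (fun T : EuclideanSpace ℝ (Fin 2) →L[ℝ] EuclideanSpace ℝ (Fin 2) => T z) e1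
      simpa using this
  have hfκ : ContDiff ℝ ∞ (fun y => f (κ' y)) := h.smooth.comp hκ'
  have hfκd : ∀ y, fderiv ℝ (fun y => f (κ' y)) y =
      (fderiv ℝ f (κ' y)).comp (fderiv ℝ κ' y) := by
    intro y
    have d1 := ((h.smooth.differentiable (by simp)) (κ' y)).hasFDerivAt
    have d2 := ((hκ'.differentiable (by simp)) y).hasFDerivAt
    exact (d1.comp y d2).fderiv
  have hsq0 : ∀ x ∈ closedBall (0 : EuclideanSpace ℝ (Fin 2)) 1,
      squeeze G 0 x ∈ closedBall (0 : EuclideanSpace ℝ (Fin 2)) 1 := by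
    intro x hx
    have hcont : Continuous fun b : ℝ => squeeze G b x :=
      (contDiff_squeeze hG).continuous.comp (continuous_id.prodMk continuous_const)
    have hlim : Filter.Tendsto (fun b : ℝ => squeeze G b x) (𝓝[>] 0) (𝓝 (squeeze G 0 x)) :=
      hcont.continuousAt.tendsto.mono_left nhdsWithin_le_nhds
    refine isClosed_closedBall.mem_of_tendsto hlim ?_
    filter_upwards [Ioo_mem_nhdsGT (zero_lt_one' ℝ)] with b hb
    exact squeeze_mem h1 h2 hb.1 hb.2.le hx
  obtain ⟨v, b, hb0, hb1, hv⟩ := exists_dir hfκ hG (fun x hx => by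
    rw [hfκd]
    exact (h.immersion _ (hκb (hsq0 x hx))).comp (hκ'inj _).1)
  obtain ⟨hh, hhs, hslice⟩ := hd b hb0 hb1
  obtain ⟨hs1, hs2⟩ := hslice 1 one_pos
  refine ⟨_, lift3 v, hs1, rfl, ?_, hs2⟩
  intro x hx
  obtain ⟨u, hu⟩ := hv x hx
  have hsq : ContDiff ℝ ∞ (squeeze G b) :=
    (contDiff_squeeze hG).comp (contDiff_const.prodMk contDiff_id)
  have hun : ContDiff ℝ ∞ (unsqueeze G b) := contDiff_unsqueeze hG b
  -- `fderiv (squeeze G b) x` is surjective
  have hsur : ∃ w, fderiv ℝ (squeeze G b) x w = u := by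
    have hid : squeeze G b ∘ unsqueeze G b = id := funext fun z => squeeze_unsqueeze G hb0.ne' z
    have d1 := ((hsq.differentiable (by simp)) (unsqueeze G b (squeeze G b x))).hasFDerivAt
    have d2 := ((hun.differentiable (by simp)) (squeeze G b x)).hasFDerivAt
    have d3 := d1.comp (squeeze G b x) d2
    rw [hid, unsqueeze_squeeze G hb0.ne'] at d3
    have e1 := d3.unique (hasFDerivAt_id _)
    refine ⟨fderiv ℝ (unsqueeze G b) (squeeze G b x) u, ?_⟩
    have := congrArg (fun T : EuclideanSpace ℝ (Fin 2) →L[ℝ] EuclideanSpace ℝ (Fin 2) => T u) e1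
    simpa using this
  obtain ⟨w, hw⟩ := hsur
  refine ⟨w, ?_⟩
  rw [inner_lift3_fderiv hs1.smooth, projThree_lift4]
  have d1 := ((hfκ.differentiable (by simp)) (squeeze G b x)).hasFDerivAt
  have d2 := ((hsq.differentiable (by simp)) x).hasFDerivAt
  have d3 : fderiv ℝ (fun x => f (κ' (squeeze G b x))) x = _ := (d1.comp x d2).fderiv
  rw [d3, ContinuousLinearMap.comp_apply, hw]
  exact hu

/-- Up to isotopy, a ribbon knot bounds a slice disc on which some linear coordinate of `R^3` has no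
critical point. -/
theorem exists_dir_of_ribbonKnot {K : Set (EuclideanSpace ℝ (Fin 3))} (hK : IsRibbonKnot K) :
    ∃ (F : EuclideanSpace ℝ (Fin 2) → EuclideanSpace ℝ (Fin 4)) (v : EuclideanSpace ℝ (Fin 4)),
      IsSliceDisc F ∧ v 3 = 0 ∧
      (∀ x ∈ closedBall (0 : EuclideanSpace ℝ (Fin 2)) 1,
        ∃ u, (inner ℝ v (fderiv ℝ F x u) : ℝ) ≠ 0) ∧
      AmbientIsotopic K (boundaryKnot F) := by
  obtain ⟨f, hf, rfl⟩ := hK
  obtain ⟨n, α, B, h⟩ := hf.doubleData
  have h00 : (0 : ℝ) ∈ Icc (0 : ℝ) 1 := by simp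
  obtain ⟨R, hR1, hR2⟩ := exists_axes (fun i => α i 0) (fun i => deriv (α i) 0)
    (fun i j hij h0 => Set.disjoint_left.1 (h.disj i j hij) ⟨0, h00, rfl⟩ ⟨0, h00, h0.symm⟩)
    (fun i => (h.arc i).regular 0 h00)
  have hr := h.rotate R
  obtain ⟨c, hc, hc1, G, hG, h1, h2, h3⟩ := exists_graph (fun i => (hr.arc i).smooth)
    (fun i => hr.inside i 0 h00) hR1 (fun i => by
      have h1 : deriv (fun s => R (α i s)) 0 = R (deriv (α i) 0) := by
        have h2 := (((h.arc i).smooth.differentiable (by simp)) 0).hasDerivAt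
        exact (R.toContinuousLinearEquiv.hasFDerivAt.comp_hasDerivAt 0 h2).deriv
      rw [h1]
      exact hR2 i)
  obtain ⟨F, v, hF1, hv, hF2, hF3⟩ := exists_dir_of_graph hr hc hc1 hG h1 h2 h3
  refine ⟨F, v, hF1, hv, hF2, ?_⟩
  have h4 : (fun x => f (R.symm x)) '' sphere 0 1 = f '' sphere 0 1 := by
    have h5 : (fun x => f (R.symm x)) '' sphere (0 : EuclideanSpace ℝ (Fin 2)) 1 =
        f '' (R.symm '' sphere 0 1) := by rw [image_image]
    rw [h5, R.symm.image_sphere]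
    simp
  rwa [h4] at hF3

end Pool.Agent.Lib_MP_752436_rb
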