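import Pool.Agent.Lib_MP_752436_rb.Defs

/-!
PIECE PUSH: an immersed disc whose double points have one preimage in a compact subset `A` of the
open disc and the other one in a closed set `B` disjoint from `A` is the projection of slice discs.

`χ` smooth, `0 ≤ χ ≤ 1`, `χ = 1` on `A`, `χ = 0` on `B` (`exists_contDiff_zero_one` or
`exists_contMDiff_zero_iff_one_iff_of_isClosed` / `exists_smooth_zero_one_of_isClosed`),
`A ⊆ closedBall 0 r`, `r < 1` (compactness), `h x = (1 - ‖x‖ ^ 2) * (1 + C χ x)` with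
`(1 - r ^ 2) * (1 + C) > 1`.
-/

open MeasureTheory Metric Set
open scoped ContDiff Topology

namespace Pool.Agent.Lib_MP_752436_rb

open Pool.Agent.Lib_MP_752436_gt

/-- The disc in `R^4` with projection `g` and height `h`. -/
noncomputable def lift4 (g : EuclideanSpace ℝ (Fin 2) → EuclideanSpace ℝ (Fin 3))
    (h : EuclideanSpace ℝ (Fin 2) → ℝ) (x : EuclideanSpace ℝ (Fin 2)) :
    EuclideanSpace ℝ (Fin 4) :=
  !₂[g x 0, g x 1, g x 2, h x]

theorem shadow_lift4 (g : EuclideanSpace ℝ (Fin 2) → EuclideanSpace ℝ (Fin 3))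
    (h : EuclideanSpace ℝ (Fin 2) → ℝ) : shadow (lift4 g h) = g := by
  funext x
  ext i
  fin_cases i <;> simp [shadow, lift4]

private theorem push_coord {n : ℕ} {G : EuclideanSpace ℝ (Fin 2) → EuclideanSpace ℝ (Fin n)}
    {x : EuclideanSpace ℝ (Fin 2)} (hG : DifferentiableAt ℝ G x) (i : Fin n)
    (u : EuclideanSpace ℝ (Fin 2)) :
    (fderiv ℝ G x u) i = fderiv ℝ (fun y => G y i) x u := by
  have h1 : HasFDerivAt (fun y => G y i)
      ((EuclideanSpace.proj i : EuclideanSpace ℝ (Fin n) →L[ℝ] ℝ).comp (fderiv ℝ G x)) x :=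
    (EuclideanSpace.proj i : EuclideanSpace ℝ (Fin n) →L[ℝ] ℝ).hasFDerivAt.comp x hG.hasFDerivAt
  rw [h1.fderiv]
  rfl

private theorem push_smooth {g : EuclideanSpace ℝ (Fin 2) → EuclideanSpace ℝ (Fin 3)}
    {h : EuclideanSpace ℝ (Fin 2) → ℝ} (hg : ContDiff ℝ ∞ g) (hh : ContDiff ℝ ∞ h) :
    ContDiff ℝ ∞ (lift4 g h) := by
  have hc := contDiff_euclidean.1 hg
  refine contDiff_euclidean.2 (fun i => ?_)
  fin_cases i
  · exact hc 0
  · exact hc 1
  · exact hc 2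
  · exact hh

private theorem push_immersion {g : EuclideanSpace ℝ (Fin 2) → EuclideanSpace ℝ (Fin 3)}
    {h : EuclideanSpace ℝ (Fin 2) → ℝ} (hg : ContDiff ℝ ∞ g) (hh : ContDiff ℝ ∞ h)
    {x : EuclideanSpace ℝ (Fin 2)} (hx : Function.Injective (fderiv ℝ g x)) :
    Function.Injective (fderiv ℝ (lift4 g h) x) := by
  intro u v huv
  apply hx
  have hF := ((push_smooth hg hh).differentiable (by simp)) x
  have hG := (hg.differentiable (by simp)) x
  have key : ∀ i : Fin 3, (fderiv ℝ g x u) i = (fderiv ℝ g x v) i := by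
    intro i
    rw [push_coord hG, push_coord hG]
    have h1 : (fun y => g y i) = fun y => lift4 g h y i.castSucc := by
      funext y
      fin_cases i <;> simp [lift4]
    rw [h1, ← push_coord hF, ← push_coord hF, huv]
  ext i
  exact key i

theorem exists_push {g : EuclideanSpace ℝ (Fin 2) → EuclideanSpace ℝ (Fin 3)}
    (hg : ContDiff ℝ ∞ g)
    (him : ∀ x ∈ closedBall (0 : EuclideanSpace ℝ (Fin 2)) 1, Function.Injective (fderiv ℝ g x))
    {A B : Set (EuclideanSpace ℝ (Fin 2))} (hA : IsCompact A) (hAb : A ⊆ ball 0 1)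
    (hB : IsClosed B) (hAB : Disjoint A B)
    (hdouble : ∀ x ∈ closedBall (0 : EuclideanSpace ℝ (Fin 2)) 1,
      ∀ y ∈ closedBall (0 : EuclideanSpace ℝ (Fin 2)) 1, x ≠ y → g x = g y →
        (x ∈ A ∧ y ∈ B) ∨ (x ∈ B ∧ y ∈ A)) :
    ∃ h : EuclideanSpace ℝ (Fin 2) → ℝ, ContDiff ℝ ∞ h ∧
      ∀ lam : ℝ, 0 < lam → IsSliceDisc (lift4 g (fun x => lam * h x)) := by
  obtain ⟨r, hr0, hr1, hAr⟩ : ∃ r : ℝ, 0 ≤ r ∧ r < 1 ∧ ∀ x ∈ A, ‖x‖ ≤ r := by
    rcases A.eq_empty_or_nonempty with hE | hE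
    · exact ⟨0, le_rfl, zero_lt_one, by simp [hE]⟩
    · obtain ⟨x0, hx0, hmax⟩ := hA.exists_isMaxOn hE continuous_norm.continuousOn
      have h1 : ‖x0‖ < 1 := by
        have := hAb hx0
        rwa [mem_ball_zero_iff] at this
      exact ⟨‖x0‖, norm_nonneg _, h1, fun x hx => hmax hx⟩
  obtain ⟨χ, hχ, hχr, hχ0, hχ1⟩ := exists_contMDiff_zero_iff_one_iff_of_isClosed (n := ⊤)
    (modelWithCornersSelf ℝ (EuclideanSpace ℝ (Fin 2))) hB hA.isClosed hAB.symm
  have hχs : ContDiff ℝ ∞ χ := hχ.contDiff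
  have hχn : ∀ x, 0 ≤ χ x := fun x => (hχr ⟨x, rfl⟩).1
  have hr2 : 0 < 1 - r ^ 2 := by nlinarith
  obtain ⟨C, hC0, hC⟩ : ∃ C : ℝ, 0 ≤ C ∧ 1 < (1 - r ^ 2) * (1 + C) := by
    refine ⟨(1 - r ^ 2)⁻¹, (inv_pos.2 hr2).le, ?_⟩
    rw [mul_add, mul_one, mul_inv_cancel₀ hr2.ne']
    linarith
  have hfac : ∀ x, 1 ≤ 1 + C * χ x := fun x => by
    have := mul_nonneg hC0 (hχn x)
    linarith
  have hhs : ContDiff ℝ ∞ (fun x : EuclideanSpace ℝ (Fin 2) =>
      (1 - ‖x‖ ^ 2) * (1 + C * χ x)) :=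
    (contDiff_const.sub (contDiff_norm_sq ℝ)).mul
      (contDiff_const.add (contDiff_const.mul hχs))
  -- the heights of the two preimages of a double point are different
  have hlt : ∀ x ∈ A, ∀ y ∈ B, (1 - ‖y‖ ^ 2) * (1 + C * χ y) < (1 - ‖x‖ ^ 2) * (1 + C * χ x) := by
    intro x hx y hy
    rw [(hχ0 y).1 hy, (hχ1 x).1 hx]
    have h1 : ‖x‖ ^ 2 ≤ r ^ 2 := pow_le_pow_left₀ (norm_nonneg x) (hAr x hx) 2
    have h2 : (1 - r ^ 2) * (1 + C) ≤ (1 - ‖x‖ ^ 2) * (1 + C * 1) := by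
      rw [mul_one]
      exact mul_le_mul_of_nonneg_right (by linarith) (by linarith)
    have h3 : 0 ≤ ‖y‖ ^ 2 := by positivity
    rw [mul_zero, add_zero, mul_one]
    linarith
  refine ⟨_, hhs, fun lam hlam => ?_⟩
  have hls : ContDiff ℝ ∞ (fun x : EuclideanSpace ℝ (Fin 2) =>
      lam * ((1 - ‖x‖ ^ 2) * (1 + C * χ x))) := contDiff_const.mul hhs
  refine ⟨push_smooth hg hls, ?_, fun x hx => push_immersion hg hls (him x hx), ?_, ?_⟩
  · intro x hx y hy hxy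
    by_contra hne
    have h1 : g x = g y := by
      have h2 := congrArg (fun p : EuclideanSpace ℝ (Fin 4) => (!₂[p 0, p 1, p 2] :
        EuclideanSpace ℝ (Fin 3))) hxy
      have h3 : ∀ z, (!₂[lift4 g (fun x : EuclideanSpace ℝ (Fin 2) =>
          lam * ((1 - ‖x‖ ^ 2) * (1 + C * χ x))) z 0, lift4 g (fun x : EuclideanSpace ℝ (Fin 2) =>
          lam * ((1 - ‖x‖ ^ 2) * (1 + C * χ x))) z 1, lift4 g (fun x : EuclideanSpace ℝ (Fin 2) =>
          lam * ((1 - ‖x‖ ^ 2) * (1 + C * χ x))) z 2] : EuclideanSpace ℝ (Fin 3)) = g z := by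
        intro z
        exact congrFun (shadow_lift4 g _) z
      rw [← h3 x, ← h3 y]
      exact h2
    have h4 : lam * ((1 - ‖x‖ ^ 2) * (1 + C * χ x)) = lam * ((1 - ‖y‖ ^ 2) * (1 + C * χ y)) := by
      have := congrArg (fun p : EuclideanSpace ℝ (Fin 4) => p 3) hxy
      simpa [lift4] using this
    have h5 := mul_left_cancel₀ hlam.ne' h4
    rcases hdouble x hx y hy hne h1 with ⟨ha, hb⟩ | ⟨hb, ha⟩
    · have := hlt x ha y hb
      linarith
    · have := hlt y ha x hb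
      linarith
  · intro x hx
    have h1 : ‖x‖ = 1 := by simpa using hx
    simp [lift4, h1]
  · intro x hx
    have h1 : ‖x‖ < 1 := by simpa using hx
    have h2 : 0 < 1 - ‖x‖ ^ 2 := by nlinarith [norm_nonneg x]
    have h3 : 0 < 1 + C * χ x := by linarith [hfac x]
    have h4 : 0 < lam * ((1 - ‖x‖ ^ 2) * (1 + C * χ x)) := by positivity
    simpa [lift4] using h4

end Pool.Agent.Lib_MP_752436_rb
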