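import Pool.Agent.Lib_MP_752436_rb.Defs

/-!
PIECE EXT: smooth local left inverses, and extension operators for functions on embedded compact
sets.

`exists_left_inverse`: take a linear left inverse `L : F →L[ℝ] E` of `fderiv ℝ g x`
(`LinearMap.exists_leftInverse_of_injective`, `LinearMap.toContinuousLinearMap`), `L ∘ g` has
derivative `id` at `x`, let `k` be its local inverse (`HasStrictFDerivAt.localInverse`,
`ContDiffAt.to_localInverse`), and multiply `k ∘ L` by a bump function (`ContDiffBump`) which is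
`1` near `g x` and supported where `k ∘ L` is smooth.

`exists_ext`: for `x ∈ P` the relation `π (h y) = y` holds on `P ∩ N`, `N` an open neighbourhood
of `x`; `h '' (P \ N)` is compact and does not contain `h x`, so for some `r > 0` with
`closedBall (h x) r ⊆ W` it holds for all `y ∈ P` with `h y ∈ closedBall (h x) r`. Cover the
compact `h '' P` by finitely many `ball (h x_i) (r_i/2)`, `g_i := ContDiffBump` equal to `1` on
`closedBall (h x_i) (r_i/2)` with support in `ball (h x_i) r_i`, and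
`ρ_i := (∏ j < i, (1 - g_j)) * g_i`, so that `∑ ρ_i = 1 - ∏ (1 - g_i)`
(`Finset.prod_one_sub_ordered` may help; or do an induction over a list / finset).
-/

open MeasureTheory Metric Set
open scoped ContDiff Topology

namespace Pool.Agent.Lib_MP_752436_rb

open Pool.Agent.Lib_MP_752436_gt

variable {E F : Type*} [NormedAddCommGroup E] [NormedSpace ℝ E] [FiniteDimensional ℝ E]
  [NormedAddCommGroup F] [NormedSpace ℝ F] [FiniteDimensional ℝ F]

/-- a smooth self map with derivative the identity at `x` has an inverse which is smooth near the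
image of `x` -/
private theorem ext_local_inverse {k : E → E} (hk : ContDiff ℝ ∞ k) {x : E}
    (hx : fderiv ℝ k x = ContinuousLinearMap.id ℝ E) :
    ∃ (V : Set E) (q : E → E), IsOpen V ∧ k x ∈ V ∧ (∀ z ∈ V, ContDiffAt ℝ ∞ q z) ∧
      ∀ᶠ y in 𝓝 x, q (k y) = y := by
  have : CompleteSpace E := FiniteDimensional.complete ℝ E
  have hd : HasStrictFDerivAt k
      ((ContinuousLinearEquiv.refl ℝ E : E ≃L[ℝ] E) : E →L[ℝ] E) x := by
    have h1 : HasStrictFDerivAt k (fderiv ℝ k x) x :=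
      (hk.contDiffAt (x := x)).hasStrictFDerivAt (by simp)
    rw [hx] at h1
    simpa using h1
  set e := hd.toOpenPartialHomeomorph k with he
  have hek : ∀ y, e y = k y := fun y => rfl
  have hxs : x ∈ e.source := hd.mem_toOpenPartialHomeomorph_source
  have hkt : k x ∈ e.target := hd.image_mem_toOpenPartialHomeomorph_target
  have hsx : e.symm (k x) = x := e.left_inv hxs
  have hU : IsOpen {p : E | fderiv ℝ k p ∈
      range ((↑) : (E ≃L[ℝ] E) → E →L[ℝ] E)} :=
    ContinuousLinearEquiv.isOpen.preimage (hk.continuous_fderiv (by simp))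
  have hUx : x ∈ {p : E | fderiv ℝ k p ∈ range ((↑) : (E ≃L[ℝ] E) → E →L[ℝ] E)} := by
    refine ⟨ContinuousLinearEquiv.refl ℝ E, ?_⟩
    rw [hx]
    rfl
  refine ⟨e.target ∩ e.symm ⁻¹' {p : E | fderiv ℝ k p ∈
      range ((↑) : (E ≃L[ℝ] E) → E →L[ℝ] E)}, e.symm,
      e.symm.isOpen_inter_preimage hU, ⟨hkt, ?_⟩, ?_, ?_⟩
  · show fderiv ℝ k (e.symm (k x)) ∈ range ((↑) : (E ≃L[ℝ] E) → E →L[ℝ] E)
    rw [hsx]
    exact hUx
  · rintro z ⟨hz, c, hc⟩
    refine e.contDiffAt_symm (f₀' := c) hz ?_ ?_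
    · rw [hc]
      exact (hk.differentiable (by simp)).differentiableAt.hasFDerivAt
    · exact hk.contDiffAt
  · filter_upwards [e.open_source.mem_nhds hxs] with y hy
    exact e.left_inv hy

theorem exists_left_inverse {g : E → F} (hg : ContDiff ℝ ∞ g) {x : E}
    (hx : Function.Injective (fderiv ℝ g x)) :
    ∃ π : F → E, ContDiff ℝ ∞ π ∧ ∀ᶠ y in 𝓝 x, π (g y) = y := by
  obtain ⟨L0, hL0⟩ := LinearMap.exists_leftInverse_of_injective
    (fderiv ℝ g x : E →ₗ[ℝ] F) (LinearMap.ker_eq_bot.2 hx)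
  set L : F →L[ℝ] E := LinearMap.toContinuousLinearMap L0 with hL
  have hk : ContDiff ℝ ∞ (fun y => L (g y)) := L.contDiff.comp hg
  have hkd : fderiv ℝ (fun y => L (g y)) x = ContinuousLinearMap.id ℝ E := by
    have h1 : HasFDerivAt (fun y => L (g y)) (L.comp (fderiv ℝ g x)) x :=
      L.hasFDerivAt.comp x (hg.differentiable (by simp)).differentiableAt.hasFDerivAt
    rw [h1.fderiv]
    ext v
    have h2 := LinearMap.congr_fun hL0 v
    simpa [hL] using h2
  obtain ⟨V, q, hVo, hxV, hqs, hqi⟩ := ext_local_inverse hk hkd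
  have hO : IsOpen (L ⁻¹' V) := hVo.preimage L.continuous
  obtain ⟨r, hr, hrV⟩ := Metric.nhds_basis_closedBall.mem_iff.1 (hO.mem_nhds (show g x ∈ L ⁻¹' V from hxV))
  let χ : ContDiffBump (g x) := ⟨r / 2, r, by positivity, by linarith⟩
  refine ⟨fun z => χ z • q (L z), ?_, ?_⟩
  · refine contDiff_iff_contDiffAt.2 (fun z => ?_)
    by_cases hz' : z ∈ tsupport (fun z => χ z)
    · have hz2 : z ∈ closedBall (g x) r := by
        rw [show tsupport (fun z => χ z) = tsupport χ from rfl, χ.tsupport_eq] at hz'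
        exact hz'
      exact (χ.contDiff.contDiffAt).smul ((hqs _ (hrV hz2)).comp z L.contDiff.contDiffAt)
    · have h0 : (fun z => χ z • q (L z)) =ᶠ[𝓝 z] fun _ => (0 : E) := by
        filter_upwards [notMem_tsupport_iff_eventuallyEq.1 hz'] with w hw
        have hw' : χ w = 0 := hw
        rw [hw', zero_smul]
      exact contDiffAt_const.congr_of_eventuallyEq h0
  · have h1 : ∀ᶠ y in 𝓝 x, g y ∈ closedBall (g x) (r / 2) :=
      hg.continuous.continuousAt.eventually (closedBall_mem_nhds _ (by positivity))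
    filter_upwards [h1, hqi] with y hy1 hy2
    have h2 : χ (g y) = 1 := χ.one_of_mem_closedBall hy1
    show χ (g y) • q (L (g y)) = y
    rw [h2, one_smul]
    exact hy2

omit [FiniteDimensional ℝ E] [FiniteDimensional ℝ F] in
/-- the extension data near one point -/
private theorem ext_local {P : Set E} (hP : IsCompact P) {h : E → F} (hh : ContinuousOn h P)
    (hinj : InjOn h P) {x : E} (hx : x ∈ P)
    (hloc : ∃ π : F → E, ContDiff ℝ ∞ π ∧ ∀ᶠ y in 𝓝[P] x, π (h y) = y)
    {W : Set F} (hW : IsOpen W) (hPW : MapsTo h P W) :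
    ∃ (r : ℝ) (π : F → E), 0 < r ∧ closedBall (h x) r ⊆ W ∧ ContDiff ℝ ∞ π ∧
      ∀ y ∈ P, h y ∈ closedBall (h x) r → π (h y) = y := by
  obtain ⟨π, hπ, hev⟩ := hloc
  obtain ⟨N, hN, hxN, hsub⟩ := mem_nhdsWithin.1 hev
  have hc : IsCompact (h '' (P \ N)) :=
    (hP.diff hN).image_of_continuousOn (hh.mono sdiff_subset)
  have hnot : h x ∉ h '' (P \ N) := by
    rintro ⟨y, ⟨hyP, hyN⟩, hy⟩
    exact hyN ((hinj hyP hx hy) ▸ hxN)
  have hopen : IsOpen (W ∩ (h '' (P \ N))ᶜ) := hW.inter hc.isClosed.isOpen_compl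
  obtain ⟨r, hr, hrs⟩ := Metric.nhds_basis_closedBall.mem_iff.1
    (hopen.mem_nhds ⟨hPW hx, hnot⟩)
  refine ⟨r, π, hr, fun z hz => (hrs hz).1, hπ, fun y hy hyr => ?_⟩
  by_contra hne
  have hyN : y ∉ N := fun hyN => hne (hsub ⟨hyN, hy⟩)
  exact (hrs hyr).2 ⟨y, ⟨hy, hyN⟩, rfl⟩

theorem exists_ext {P : Set E} (hP : IsCompact P) {h : E → F} (hh : ContinuousOn h P)
    (hinj : InjOn h P)
    (hloc : ∀ x ∈ P, ∃ π : F → E, ContDiff ℝ ∞ π ∧ ∀ᶠ y in 𝓝[P] x, π (h y) = y)
    {W : Set F} (hW : IsOpen W) (hPW : MapsTo h P W) :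
    ∃ (n : ℕ) (ρ : Fin n → F → ℝ) (π : Fin n → F → E),
      (∀ i, ContDiff ℝ ∞ (ρ i)) ∧ (∀ i, ContDiff ℝ ∞ (π i)) ∧
      (∀ i, HasCompactSupport (ρ i)) ∧ (∀ i, tsupport (ρ i) ⊆ W) ∧
      (∀ x ∈ P, ∑ i, ρ i (h x) = 1) ∧
      ∀ i, ∀ x ∈ P, h x ∈ tsupport (ρ i) → π i (h x) = x := by
  have hlocal : ∀ z : F, ∃ (r : ℝ) (π : F → E), z ∈ h '' P → (0 < r ∧ closedBall z r ⊆ W ∧
      ContDiff ℝ ∞ π ∧ ∀ y ∈ P, h y ∈ closedBall z r → π (h y) = y) := by
    intro z
    by_cases hz : z ∈ h '' P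
    · obtain ⟨x, hx, rfl⟩ := hz
      obtain ⟨r, π, h1, h2, h3, h4⟩ := ext_local hP hh hinj hx (hloc x hx) hW hPW
      exact ⟨r, π, fun _ => ⟨h1, h2, h3, h4⟩⟩
    · exact ⟨1, fun _ => 0, fun h => absurd h hz⟩
  choose r π0 hr using hlocal
  have hK : IsCompact (h '' P) := hP.image_of_continuousOn hh
  obtain ⟨t, htK, htc⟩ := hK.elim_nhds_subcover (fun z => ball z (r z / 2))
    (fun z hz => ball_mem_nhds z (by have := (hr z hz).1; linarith))
  let e : Fin t.card ≃ t := t.equivFin.symm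
  have hpos : ∀ i, 0 < r (e i : F) := fun i => (hr _ (htK _ (e i).2)).1
  let χ : ∀ i : Fin t.card, ContDiffBump (e i : F) := fun i =>
    ⟨r (e i : F) / 2, r (e i : F), by have := hpos i; linarith, by have := hpos i; linarith⟩
  let ρ : Fin t.card → F → ℝ := fun i z =>
    χ i z * ∏ j ∈ Finset.univ.filter (fun j => j < i), (1 - χ j z)
  have hts : ∀ i, tsupport (ρ i) ⊆ closedBall (e i : F) (r (e i : F)) := by
    intro i
    have h1 : tsupport (ρ i) ⊆ tsupport (fun z => χ i z) :=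
      tsupport_mul_subset_left (f := fun z => χ i z)
        (g := fun z => ∏ j ∈ Finset.univ.filter (fun j => j < i), (1 - χ j z))
    refine h1.trans ?_
    rw [show tsupport (fun z => χ i z) = tsupport (χ i) from rfl, (χ i).tsupport_eq]
  refine ⟨t.card, ρ, fun i => π0 (e i : F), ?_, ?_, ?_, ?_, ?_, ?_⟩
  · intro i
    refine (χ i).contDiff.mul (contDiff_prod (fun j _ => contDiff_const.sub (χ j).contDiff))
  · intro i
    exact (hr _ (htK _ (e i).2)).2.2.1
  · intro i
    exact HasCompactSupport.of_support_subset_isCompact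
      (isCompact_closedBall (e i : F) (r (e i : F))) ((subset_tsupport _).trans (hts i))
  · intro i
    exact (hts i).trans (hr _ (htK _ (e i).2)).2.1
  · intro x hx
    have h1 := Finset.prod_one_sub_ordered (Finset.univ : Finset (Fin t.card))
      (fun i => χ i (h x))
    have h2 : ∏ i, (1 - χ i (h x)) = 0 := by
      obtain ⟨z, hz⟩ := mem_iUnion.1 (htc ⟨x, hx, rfl⟩)
      obtain ⟨hzt, hzb⟩ := mem_iUnion.1 hz
      obtain ⟨i, hi⟩ := e.surjective ⟨z, hzt⟩
      refine Finset.prod_eq_zero (Finset.mem_univ i) ?_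
      have h3 : χ i (h x) = 1 := by
        apply (χ i).one_of_mem_closedBall
        have h4 : (e i : F) = z := by rw [hi]
        show h x ∈ closedBall (e i : F) (r (e i : F) / 2)
        rw [h4]
        exact ball_subset_closedBall hzb
      rw [h3, sub_self]
    rw [h2] at h1
    have h5 : ∑ i, ρ i (h x) = ∑ i, χ i (h x) *
        ∏ j ∈ Finset.univ.filter (fun j => j < i), (1 - χ j (h x)) := rfl
    rw [h5]
    linarith
  · intro i x hx hxt
    exact (hr _ (htK _ (e i).2)).2.2.2 x hx (hts i hxt)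

end Pool.Agent.Lib_MP_752436_rb
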