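import Pool.Agent.Lib_MP_752436_rb.SmallDiffeo
import Pool.Agent.Lib_MP_752436_rb.Ext

/-!
PIECE ISOEXT: the isotopy extension theorem, without flows.

Apply `exists_ext` to `P' = Icc 0 1 ×ˢ P ⊆ ℝ × E`, `h (s, x) = (s, H s x) ∈ ℝ × F`,
`W' = univ ×ˢ W`. For `s, t` put
`U s t y = ∑ i, ρ i (s, y) • (H t (π i (s, y)).2 - H s (π i (s, y)).2)`.
Then `U s t (H s x) = H t x - H s x` for `x ∈ P`, `s ∈ Icc 0 1`, and `U s t y = 0` for `y ∉ W`.
`G (s, t, y) = fderiv ℝ (U s t) y` is continuous (the map `(s, t, y) ↦ U s t y` is smooth,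
`ContDiff.fderiv`), `G (s, s, y) = 0`, and `G (s, t, y) = 0` for `y` outside a compact set `K'`
(the projection to `F` of the supports), so by uniform continuity on `Icc 0 1 ×ˢ Icc 0 1 ×ˢ K'`
there is `N` with `‖G (s, t, y)‖ ≤ 1/2` for `s, t ∈ Icc 0 1`, `|s - t| ≤ 1/N`. Then induction on
`j ≤ N`: there is an isotopy `Ψ` with `Ψ 1 (H 0 x) = H (j/N) x` on `P` (compose with
`isIsotopy_id_add`, `IsIsotopy.comp`).
-/

open MeasureTheory Metric Set
open scoped ContDiff Topology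

namespace Pool.Agent.Lib_MP_752436_rb

open Pool.Agent.Lib_MP_752436_gt

variable {E F : Type*} [NormedAddCommGroup E] [NormedSpace ℝ E] [FiniteDimensional ℝ E]
  [NormedAddCommGroup F] [NormedSpace ℝ F] [FiniteDimensional ℝ F]

omit [FiniteDimensional ℝ F] in
/-- A smooth family `U s t` of vector fields with `U s s = 0` and supports in a fixed compact set
has small derivative for `s` near `t`. -/
private theorem exists_small_step_IsoExt {U : ℝ → ℝ → F → F}
    (hU : ContDiff ℝ ∞ (fun p : ℝ × ℝ × F => U p.1 p.2.1 p.2.2))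
    (hdiag : ∀ s y, U s s y = 0) {K : Set F} (hK : IsCompact K)
    (hsupp : ∀ s t, ∀ y ∉ K, U s t y = 0) :
    ∃ δ > 0, ∀ s ∈ Icc (0 : ℝ) 1, ∀ t ∈ Icc (0 : ℝ) 1, |s - t| < δ →
      ∀ y, ‖fderiv ℝ (U s t) y‖ ≤ 1 / 2 := by
  have hG : Continuous (fun p : ℝ × ℝ × F => fderiv ℝ (U p.1 p.2.1) p.2.2) := by
    have h1 : ContDiff ℝ 0 (fun p : ℝ × ℝ × F =>
        fderiv ℝ ((fun (q : ℝ × ℝ × F) (y : F) => U q.1 q.2.1 y) p) (p.2.2)) := by
      refine ContDiff.fderiv (m := (∞ : WithTop ℕ∞)) (f := fun (q : ℝ × ℝ × F) (y : F) => U q.1 q.2.1 y) (g := fun p => p.2.2)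
        ?_ ?_ ?_
      · have : (Function.uncurry fun (q : ℝ × ℝ × F) (y : F) => U q.1 q.2.1 y)
            = (fun p : ℝ × ℝ × F => U p.1 p.2.1 p.2.2) ∘
              (fun r : (ℝ × ℝ × F) × F => (r.1.1, r.1.2.1, r.2)) := by
          ext r; rfl
        rw [this]
        exact hU.comp (by fun_prop)
      · fun_prop
      · norm_num
    exact h1.continuous
  have hcomp : IsCompact (Icc (0 : ℝ) 1 ×ˢ (Icc (0 : ℝ) 1 ×ˢ K)) :=
    isCompact_Icc.prod (isCompact_Icc.prod hK)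
  have huc := hcomp.uniformContinuousOn_of_continuous hG.continuousOn
  rw [Metric.uniformContinuousOn_iff] at huc
  obtain ⟨δ, hδ, hd⟩ := huc (1 / 2) (by norm_num)
  refine ⟨δ, hδ, ?_⟩
  intro s hs t ht hst y
  by_cases hy : y ∈ K
  · have h := hd (s, t, y) ⟨hs, ht, hy⟩ (s, s, y) ⟨hs, hs, hy⟩ (by
      simp only [Prod.dist_eq, dist_self, Real.dist_eq, max_lt_iff]
      exact ⟨hδ, by rwa [abs_sub_comm], hδ⟩)
    have h0 : fderiv ℝ (U s s) y = 0 := by
      have : U s s = fun _ => (0 : F) := funext fun z => hdiag s z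
      rw [this]; simp
    simp only [h0, dist_zero_right] at h
    exact h.le
  · have h0 : U s t =ᶠ[𝓝 y] fun _ => (0 : F) := by
      filter_upwards [hK.isClosed.isOpen_compl.mem_nhds hy] with z hz
      exact hsupp s t z hz
    rw [h0.fderiv_eq]
    simp

theorem isotopy_extension {H : ℝ → E → F} (hH : ContDiff ℝ ∞ (fun p : ℝ × E => H p.1 p.2))
    {P : Set E} (hP : IsCompact P) (hinj : ∀ s ∈ Icc (0 : ℝ) 1, InjOn (H s) P)
    (hloc : ∀ s ∈ Icc (0 : ℝ) 1, ∀ x ∈ P, ∃ π : ℝ × F → E, ContDiff ℝ ∞ π ∧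
      ∀ᶠ q in 𝓝[Icc (0 : ℝ) 1 ×ˢ P] (s, x), π (q.1, H q.1 q.2) = q.2)
    {W : Set F} (hW : IsOpen W) (hPW : ∀ s ∈ Icc (0 : ℝ) 1, ∀ x ∈ P, H s x ∈ W) :
    ∃ Ψ : ℝ → F → F, IsIsotopy W Ψ ∧ ∀ x ∈ P, Ψ 1 (H 0 x) = H 1 x := by
  obtain ⟨n, ρ, π, hρ, hπ, hρc, hρW, hsum, hinv⟩ :=
    exists_ext (P := Icc (0 : ℝ) 1 ×ˢ P) (isCompact_Icc.prod hP)
      (h := fun q : ℝ × E => (q.1, H q.1 q.2))
      ((contDiff_fst.prodMk hH).continuous.continuousOn)
      (by
        rintro ⟨s, x⟩ ⟨hs, hx⟩ ⟨t, y⟩ ⟨ht, hy⟩ hxy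
        simp only [Prod.mk.injEq] at hxy
        obtain ⟨h1, h2⟩ := hxy
        subst h1
        exact Prod.ext rfl (hinj s hs hx hy h2))
      (by
        rintro ⟨s, x⟩ ⟨hs, hx⟩
        obtain ⟨π, hπ, he⟩ := hloc s hs x hx
        refine ⟨fun q => (q.1, π q), contDiff_fst.prodMk hπ, ?_⟩
        filter_upwards [he] with q hq
        exact Prod.ext rfl hq)
      (W := univ ×ˢ W) (isOpen_univ.prod hW)
      (by
        rintro ⟨s, x⟩ ⟨hs, hx⟩
        exact ⟨mem_univ _, hPW s hs x hx⟩)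
  set U : ℝ → ℝ → F → F := fun s t y =>
    ∑ i, ρ i (s, y) • (H t (π i (s, y)).2 - H s (π i (s, y)).2) with hUdef
  have hUs : ContDiff ℝ ∞ (fun p : ℝ × ℝ × F => U p.1 p.2.1 p.2.2) := by
    simp only [hUdef]
    refine ContDiff.sum fun i _ => ?_
    have hpr : ContDiff ℝ ∞ (fun p : ℝ × ℝ × F => (p.1, p.2.2)) := by fun_prop
    have h1 : ContDiff ℝ ∞ (fun p : ℝ × ℝ × F => ρ i (p.1, p.2.2)) := (hρ i).comp hpr
    have h2 : ContDiff ℝ ∞ (fun p : ℝ × ℝ × F => (π i (p.1, p.2.2)).2) :=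
      contDiff_snd.comp ((hπ i).comp hpr)
    have h3 : ContDiff ℝ ∞ (fun p : ℝ × ℝ × F => H p.2.1 (π i (p.1, p.2.2)).2) :=
      hH.comp ((contDiff_fst.comp contDiff_snd).prodMk h2)
    have h4 : ContDiff ℝ ∞ (fun p : ℝ × ℝ × F => H p.1 (π i (p.1, p.2.2)).2) :=
      hH.comp (contDiff_fst.prodMk h2)
    exact h1.smul (h3.sub h4)
  have hUst : ∀ s t, ContDiff ℝ ∞ (U s t) := fun s t =>
    hUs.comp (g := fun p : ℝ × ℝ × F => U p.1 p.2.1 p.2.2)
      (contDiff_const.prodMk (contDiff_const.prodMk contDiff_id) :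
        ContDiff ℝ ∞ (fun y : F => (s, t, y)))
  have hdiag : ∀ s y, U s s y = 0 := by
    intro s y
    simp [hUdef]
  set K : Set F := ⋃ i, Prod.snd '' tsupport (ρ i) with hKdef
  have hK : IsCompact K := isCompact_iUnion fun i => (hρc i).isCompact.image continuous_snd
  have hsupp : ∀ s t, ∀ y ∉ K, U s t y = 0 := by
    intro s t y hy
    refine Finset.sum_eq_zero fun i _ => ?_
    have : ρ i (s, y) = 0 := by
      by_contra h
      exact hy (mem_iUnion.2 ⟨i, (s, y), subset_tsupport _ h, rfl⟩)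
    rw [this, zero_smul]
  have hUW : ∀ s t, ∀ y ∉ W, U s t y = 0 := by
    intro s t y hy
    refine Finset.sum_eq_zero fun i _ => ?_
    have : ρ i (s, y) = 0 := by
      by_contra h
      exact hy (hρW i (subset_tsupport _ h)).2
    rw [this, zero_smul]
  have hUH : ∀ s ∈ Icc (0 : ℝ) 1, ∀ t, ∀ x ∈ P, U s t (H s x) = H t x - H s x := by
    intro s hs t x hx
    have h1 : ∀ i ∈ Finset.univ, ρ i (s, H s x) •
        (H t (π i (s, H s x)).2 - H s (π i (s, H s x)).2) =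
        ρ i (s, H s x) • (H t x - H s x) := by
      intro i _
      by_cases h : ρ i (s, H s x) = 0
      · rw [h, zero_smul, zero_smul]
      · have h2 := hinv i (s, x) ⟨hs, hx⟩ (subset_tsupport _ h)
        simp only at h2
        rw [h2]
    calc U s t (H s x) = ∑ i, ρ i (s, H s x) • (H t x - H s x) := Finset.sum_congr rfl h1
      _ = (∑ i, ρ i (s, H s x)) • (H t x - H s x) := by rw [Finset.sum_smul]
      _ = H t x - H s x := by
        have := hsum (s, x) ⟨hs, hx⟩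
        simp only at this
        rw [this, one_smul]
  obtain ⟨δ, hδ, hsmall⟩ := exists_small_step_IsoExt hUs hdiag hK hsupp
  obtain ⟨N, hN⟩ := exists_nat_one_div_lt hδ
  have hN1 : (0 : ℝ) < (N : ℝ) + 1 := by positivity
  have key : ∀ j : ℕ, j ≤ N + 1 → ∃ Ψ : ℝ → F → F, IsIsotopy W Ψ ∧
      ∀ x ∈ P, Ψ 1 (H 0 x) = H ((j : ℝ) / ((N : ℝ) + 1)) x := by
    intro j
    induction j with
    | zero =>
      intro _
      refine ⟨fun _ x => x, isIsotopy_id W, fun x _ => ?_⟩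
      simp
    | succ j ih =>
      intro hj
      obtain ⟨Ψ, hΨ, hΨP⟩ := ih (by omega)
      set s : ℝ := (j : ℝ) / ((N : ℝ) + 1) with hs
      set t : ℝ := ((j + 1 : ℕ) : ℝ) / ((N : ℝ) + 1) with ht
      have hjN : ((j : ℝ) + 1) ≤ (N : ℝ) + 1 := by exact_mod_cast hj
      have hsI : s ∈ Icc (0 : ℝ) 1 := by
        refine ⟨by positivity, ?_⟩
        rw [hs, div_le_one hN1]
        linarith
      have htI : t ∈ Icc (0 : ℝ) 1 := by
        refine ⟨by positivity, ?_⟩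
        rw [ht, div_le_one hN1]
        push_cast
        exact hjN
      have hst : |s - t| < δ := by
        have : s - t = -(1 / ((N : ℝ) + 1)) := by
          rw [hs, ht]
          push_cast
          field_simp
          ring
        rw [this, abs_neg, abs_of_pos (by positivity)]
        exact hN
      have hiso := isIsotopy_id_add (hUst s t) (hsmall s hsI t htI hst) (W := W) (hUW s t)
      refine ⟨_, IsIsotopy.comp hiso hΨ, fun x hx => ?_⟩
      simp only [one_smul]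
      rw [hΨP x hx, hUH s hsI t x hx]
      abel
  obtain ⟨Ψ, hΨ, hΨP⟩ := key (N + 1) le_rfl
  refine ⟨Ψ, hΨ, fun x hx => ?_⟩
  rw [hΨP x hx]
  push_cast
  rw [div_self hN1.ne']

/-- The case of immersions (apply `exists_left_inverse` to `(s, x) ↦ (s, H s x)`). -/
theorem isotopy_extension_of_immersion {H : ℝ → E → F}
    (hH : ContDiff ℝ ∞ (fun p : ℝ × E => H p.1 p.2))
    {P : Set E} (hP : IsCompact P) (hinj : ∀ s ∈ Icc (0 : ℝ) 1, InjOn (H s) P)
    (himm : ∀ s ∈ Icc (0 : ℝ) 1, ∀ x ∈ P, Function.Injective (fderiv ℝ (H s) x))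
    {W : Set F} (hW : IsOpen W) (hPW : ∀ s ∈ Icc (0 : ℝ) 1, ∀ x ∈ P, H s x ∈ W) :
    ∃ Ψ : ℝ → F → F, IsIsotopy W Ψ ∧ ∀ x ∈ P, Ψ 1 (H 0 x) = H 1 x := by
  refine isotopy_extension hH hP hinj ?_ hW hPW
  intro s hs x hx
  have hg : ContDiff ℝ ∞ (fun q : ℝ × E => (q.1, H q.1 q.2)) := contDiff_fst.prodMk hH
  have hHd : DifferentiableAt ℝ (fun p : ℝ × E => H p.1 p.2) (s, x) :=
    (hH.differentiable (by norm_num)).differentiableAt
  have hfd : fderiv ℝ (fun q : ℝ × E => (q.1, H q.1 q.2)) (s, x) =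
      (ContinuousLinearMap.fst ℝ ℝ E).prod (fderiv ℝ (fun p : ℝ × E => H p.1 p.2) (s, x)) :=
    (hasFDerivAt_fst.prodMk hHd.hasFDerivAt).fderiv
  have hpart : fderiv ℝ (H s) x =
      (fderiv ℝ (fun p : ℝ × E => H p.1 p.2) (s, x)).comp (ContinuousLinearMap.inr ℝ ℝ E) := by
    have h1 : HasFDerivAt (fun y : E => (s, y)) (ContinuousLinearMap.inr ℝ ℝ E) x :=
      hasFDerivAt_prodMk_right s x
    exact (HasFDerivAt.comp x (g := fun p : ℝ × E => H p.1 p.2) (f := fun y : E => (s, y))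
      hHd.hasFDerivAt h1).fderiv
  have hinj' : Function.Injective (fderiv ℝ (fun q : ℝ × E => (q.1, H q.1 q.2)) (s, x)) := by
    rw [hfd, injective_iff_map_eq_zero]
    rintro ⟨a, v⟩ h
    rw [ContinuousLinearMap.prod_apply, Prod.mk_eq_zero] at h
    obtain ⟨h1, h2⟩ := h
    simp only [ContinuousLinearMap.coe_fst'] at h1
    subst h1
    have h3 : fderiv ℝ (H s) x v = 0 := by
      rw [hpart]
      simpa using h2
    have := (injective_iff_map_eq_zero _).1 (himm s hs x hx) v h3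
    rw [this]
    rfl
  obtain ⟨π, hπ, he⟩ := exists_left_inverse hg hinj'
  refine ⟨fun q => (π q).2, contDiff_snd.comp hπ, ?_⟩
  refine Filter.Eventually.filter_mono nhdsWithin_le_nhds ?_
  filter_upwards [he] with q hq
  rw [hq]

end Pool.Agent.Lib_MP_752436_rb
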